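import Pool.Agent.H834R5.LUC.Cert

/-! # A locked unit chain: the integer checks -/

set_option autoImplicit false
set_option maxHeartbeats 40000000
set_option maxRecDepth 100000

namespace Pool.Agent.H834R5.LUC

def pick (v : I3) (t : ℕ) : ℤ := if t = 0 then v.1 else if t = 1 then v.2.1 else v.2.2

def sub3 (u v : I3) : I3 := (u.1 - v.1, u.2.1 - v.2.1, u.2.2 - v.2.2)
def cr3 (u v : I3) : I3 :=
  (u.2.1 * v.2.2 - u.2.2 * v.2.1, u.2.2 * v.1 - u.1 * v.2.2, u.1 * v.2.1 - u.2.1 * v.1)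
def dot3 (u v : I3) : ℤ := u.1 * v.1 + u.2.1 * v.2.1 + u.2.2 * v.2.2
def det3 (u v w : I3) : ℤ := dot3 u (cr3 v w)

/-- the entry of the form of a wall at vertex `k`, component `t` -/
def gwf (w : ℕ × ℕ × ℤ) (N : I3 × I3 × I3) (k t : ℕ) : ℤ :=
  (if k = w.2.1 then pick N.1 t - pick N.2.2 t else 0) +
  (if k = w.1 then -pick N.1 t - pick N.2.1 t else 0) +
  (if k = w.1 + 1 then pick N.2.1 t else 0) + (if k = w.2.1 + 1 then pick N.2.2 t else 0)

/-- the entry of the form of a link at vertex `k`, component `t` -/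
def hbf (p : ℕ × I3) (k t : ℕ) : ℤ :=
  (if k = p.1 + 1 then pick p.2 t else 0) - (if k = p.1 then pick p.2 t else 0)

def colW (k t : ℕ) : List ℤ := List.zipWith (fun w N => gwf w N k t) walls NL
def colB (k t : ℕ) : List ℤ := BL.map fun p => hbf p k t

theorem CT_ok : CT = (List.range 69).map fun m => (m, colW (m / 3) (m % 3), colB (m / 3) (m % 3)) := by
  decide +kernel

def dotL : List ℤ → List ℤ → ℤ
  | a :: as, b :: bs => a * b + dotL as bs
  | _, _ => 0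

def absDot : List ℤ → List ℤ → ℤ
  | a :: as, b :: bs => |a| * b + absDot as bs
  | _, _ => 0

def absSum : List ℤ → ℤ
  | a :: as => |a| + absSum as
  | [] => 0

def all2 (f : ℤ → ℤ → Bool) : List ℤ → List ℤ → Bool
  | a :: as, b :: bs => f a b && all2 f as bs
  | _, _ => true

/-- the coordinates that vanish after normalisation: vertices 7, 8 and the last component of 9 -/
def gauge (m : ℕ) : Bool := (m / 3 == 7) || (m / 3 == 8) || (m == 29)

def chkRow (p : ℕ × List ℤ × List ℤ) : Bool :=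
  (p.2.1.length == 42) && (p.2.2.length == 22) &&
  (CT.all fun c => gauge c.1 ||
    decide (|dotL c.2.1 p.2.1 + dotL c.2.2 p.2.2 - (if c.1 = p.1 then 1000000000000 else 0)| ≤
      13000000)) &&
  all2 (fun x o => decide (|x| * 100000 ≤ 48 * o)) p.2.1 OMw &&
  decide (absDot p.2.1 bbL ≤ 350000000000) && decide (absSum p.2.2 ≤ 2100000)

def chkOM : Bool :=
  (OMw.length == 42) && (OMb.length == 22) &&
  (CT.all fun c => gauge c.1 || decide (|dotL c.2.1 OMw + dotL c.2.2 OMb| ≤ 8900000)) &&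
  decide (dotL OMw bbL ≤ 3900000000000000) && decide (absSum OMb ≤ 35000000000)

theorem chkOM_ok : chkOM = true := by decide +kernel

/-- the numerical check of one wall -/
def chkWall (w : ℕ × ℕ × ℤ) (N : I3 × I3 × I3) (bb : ℤ) : Bool :=
  let A := sub3 (PI (w.1 + 1)) (PI w.1)
  let B := sub3 (PI (w.2.1 + 1)) (PI w.2.1)
  let C := sub3 (PI w.2.1) (PI w.1)
  let X := cr3 A B
  let Y := cr3 B C
  let Z := cr3 C A
  let V := det3 A B C
  let F := det3 C B X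
  let F' := det3 A C X
  let Q := dot3 X X
  (decide (w.1 + 1 < w.2.1) && decide (w.2.1 < 22) && (w.2.2 == 1 || w.2.2 == -1)) &&
  (decide (|w.2.2 * X.1 * 10 ^ 7 - N.1.1 * 10 ^ 30| ≤ 10 ^ 30) &&
   decide (|w.2.2 * X.2.1 * 10 ^ 7 - N.1.2.1 * 10 ^ 30| ≤ 10 ^ 30) &&
   decide (|w.2.2 * X.2.2 * 10 ^ 7 - N.1.2.2 * 10 ^ 30| ≤ 10 ^ 30)) &&
  (decide (|w.2.2 * Y.1 * 10 ^ 7 - N.2.1.1 * 10 ^ 30| ≤ 10 ^ 30) &&
   decide (|w.2.2 * Y.2.1 * 10 ^ 7 - N.2.1.2.1 * 10 ^ 30| ≤ 10 ^ 30) &&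
   decide (|w.2.2 * Y.2.2 * 10 ^ 7 - N.2.1.2.2 * 10 ^ 30| ≤ 10 ^ 30)) &&
  (decide (|w.2.2 * Z.1 * 10 ^ 7 - N.2.2.1 * 10 ^ 30| ≤ 10 ^ 30) &&
   decide (|w.2.2 * Z.2.1 * 10 ^ 7 - N.2.2.2.1 * 10 ^ 30| ≤ 10 ^ 30) &&
   decide (|w.2.2 * Z.2.2 * 10 ^ 7 - N.2.2.2.2 * 10 ^ 30| ≤ 10 ^ 30)) &&
  (decide (w.2.2 * V + 2 * 10 ^ 34 ≤ bb * 10 ^ 31) && decide (10 ^ 34 ≤ w.2.2 * V) &&
   decide (0 ≤ bb)) &&
  (decide (10 ^ 57 ≤ F) && decide (F + 10 ^ 57 ≤ Q) && decide (F' ≤ -10 ^ 57) &&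
   decide (-F' + 10 ^ 57 ≤ Q))

def chkWalls : List (ℕ × ℕ × ℤ) → List (I3 × I3 × I3) → List ℤ → Bool
  | w :: ws, N :: Ns, b :: bs => chkWall w N b && chkWalls ws Ns bs
  | _, _, _ => true

theorem chkWalls_ok : chkWalls walls NL bbL = true := by decide +kernel

theorem len_ok : walls.length = 42 ∧ NL.length = 42 ∧ bbL.length = 42 ∧ BL.length = 22 := by
  decide +kernel

/-- the numerical check of one link -/
def chkBar (p : ℕ × I3) : Bool :=
  let D := sub3 (PI (p.1 + 1)) (PI p.1)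
  decide (p.1 < 22) &&
  decide (|D.1 * 10 ^ 7 - p.2.1 * 10 ^ 15| ≤ 10 ^ 15) &&
  decide (|D.2.1 * 10 ^ 7 - p.2.2.1 * 10 ^ 15| ≤ 10 ^ 15) &&
  decide (|D.2.2 * 10 ^ 7 - p.2.2.2 * 10 ^ 15| ≤ 10 ^ 15)

theorem chkBars_ok : (BL.all chkBar) = true := by decide +kernel

theorem chkLen_ok : ((List.range 22).all fun l =>
    decide (|dot3 (sub3 (PI (l + 1)) (PI l)) (sub3 (PI (l + 1)) (PI l)) - 10 ^ 30| ≤ 10 ^ 16)) = true := by
  decide +kernel

theorem chkDist_ok : ((List.range 23).all fun j => (List.range 23).all fun i =>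
    decide (dot3 (sub3 (PI i) (PI j)) (sub3 (PI i) (PI j)) ≤ 169 * 10 ^ 28)) = true := by
  decide +kernel

theorem chkAll_ok : ((List.range 22).all fun j => (List.range (j - 1)).all fun i =>
    decide (10 ^ 34 ≤ |det3 (sub3 (PI (i + 1)) (PI i)) (sub3 (PI (j + 1)) (PI j)) (sub3 (PI j) (PI i))|)) =
      true := by
  decide +kernel

theorem chkAdj_ok : ((List.range 21).all fun i =>
    decide (10 ^ 56 ≤ dot3 (cr3 (sub3 (PI (i + 1)) (PI i)) (sub3 (PI (i + 2)) (PI (i + 1))))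
      (cr3 (sub3 (PI (i + 1)) (PI i)) (sub3 (PI (i + 2)) (PI (i + 1)))))) = true := by
  decide +kernel

end Pool.Agent.H834R5.LUC
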