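import Pool.Agent.H834R5.LUC.Defs

/-! Task GEO: first order expansion of the volume of a wall with explicit error. -/

set_option autoImplicit false
set_option maxHeartbeats 4000000

namespace Pool.Agent.H834R5.LUC

open Pool.Agent.H282R2

namespace GeoAux

theorem expand_dt (A B R α β γ : E3) :
    dt (A + α) (B + β) (R + γ) = dt A B R + (inner ℝ (cr A B) γ + inner ℝ (cr B R) α +
      inner ℝ (cr R A) β : ℝ) + (dt α β R + dt α B γ + dt A β γ + dt α β γ) := by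
  simp only [dt, inner3, cr_zero, cr_one, cr_two, PiLp.add_apply]
  ring

theorem dt_bound {u v w : E3} {a b c : ℝ} (ha : ‖u‖ ≤ a) (hb : ‖v‖ ≤ b) (hc : ‖w‖ ≤ c) :
    |dt u v w| ≤ a * b * c := by
  have h0 : 0 ≤ a := (norm_nonneg u).trans ha
  have h1 : 0 ≤ b := (norm_nonneg v).trans hb
  refine (abs_dt_le u v w).trans ?_
  gcongr

theorem inner_close {M N v : E3} {e d : ℝ} (h : ‖M - N‖ ≤ e) (hv : ‖v‖ ≤ d) :
    (inner ℝ M v : ℝ) ≤ inner ℝ N v + e * d := by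
  have h1 : (inner ℝ M v : ℝ) = inner ℝ N v + inner ℝ (M - N) v := by
    rw [inner_sub_left]; ring
  have h2 : (inner ℝ (M - N) v : ℝ) ≤ ‖M - N‖ * ‖v‖ := real_inner_le_norm _ _
  have h3 : ‖M - N‖ * ‖v‖ ≤ e * d := by
    have h0 : 0 ≤ e := (norm_nonneg _).trans h
    gcongr
  linarith

end GeoAux

open GeoAux in
theorem wall_gen (A B R α β γ N1 N2 N3 : E3) (s b : ℝ) (hs : s = 1 ∨ s = -1)
    (hA : ‖A‖ ≤ 101 / 100) (hB : ‖B‖ ≤ 101 / 100) (hR : ‖R‖ ≤ 13 / 10)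
    (hα : ‖α‖ ≤ 2 / 10 ^ 6) (hβ : ‖β‖ ≤ 2 / 10 ^ 6) (hγ : ‖γ‖ ≤ 2 / 10 ^ 6)
    (h1 : ‖s • cr A B - N1‖ ≤ 2 / 10 ^ 7) (h2 : ‖s • cr B R - N2‖ ≤ 2 / 10 ^ 7)
    (h3 : ‖s • cr R A - N3‖ ≤ 2 / 10 ^ 7)
    (hb : s * dt A B R + 2 / 10 ^ 11 ≤ b)
    (hV : 0 ≤ s * dt (A + α) (B + β) (R + γ)) :
    0 ≤ (inner ℝ N1 γ + inner ℝ N2 α + inner ℝ N3 β : ℝ) + b := by
  rw [expand_dt] at hV
  have e1 := inner_close h1 hγ
  have e2 := inner_close h2 hα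
  have e3 := inner_close h3 hβ
  rw [inner_smul_left, RCLike.conj_to_real] at e1 e2 e3
  have d1 := abs_le.1 (dt_bound hα hβ hR)
  have d2 := abs_le.1 (dt_bound hα hB hγ)
  have d3 := abs_le.1 (dt_bound hA hβ hγ)
  have d4 := abs_le.1 (dt_bound hα hβ hγ)
  norm_num at e1 e2 e3 d1 d2 d3 d4 hb ⊢
  rcases hs with rfl | rfl
  · linarith [d1.1, d1.2, d2.1, d2.2, d3.1, d3.2, d4.1, d4.2]
  · linarith [d1.1, d1.2, d2.1, d2.2, d3.1, d3.2, d4.1, d4.2]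

end Pool.Agent.H834R5.LUC
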