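import Mathlib

/-! Task LIN: the linear algebra estimate. -/

set_option autoImplicit false
set_option maxHeartbeats 4000000

namespace Pool.Agent.H834R5.LUC

open Finset

theorem lin_swap {ι M : Type} [Fintype ι] [Fintype M] (G : ι → M → ℝ) (w : M → ℝ) (X : ι → ℝ) :
    ∑ c, X c * ∑ m, G c m * w m = ∑ m, w m * ∑ c, X c * G c m := by
  simp only [mul_sum]
  rw [sum_comm]
  exact sum_congr rfl fun m _ => sum_congr rfl fun c _ => by ring

/-- Task LIN: the linear algebra estimate. -/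
theorem lin_bound {ι κ M : Type} [Fintype ι] [Fintype κ] [Fintype M] [DecidableEq M]
    (G : ι → M → ℝ) (H : κ → M → ℝ) (w : M → ℝ) (β : ι → ℝ) (κ2 r tolω tol T τ : ℝ)
    (ω X : ι → ℝ) (ζ Z : κ → ℝ) (m0 : M)
    (hβ : ∀ c, 0 ≤ β c) (hκ : 0 ≤ κ2) (hr : 0 ≤ r) (htω : 0 ≤ tolω) (ht : 0 ≤ tol) (hT : 0 ≤ T)
    (hτ : 0 ≤ τ)
    (hG : ∀ c, 0 ≤ ∑ m, G c m * w m + β c) (hH : ∀ l, |∑ m, H l m * w m| ≤ κ2)
    (hw : ∀ m, |w m| ≤ r) (hX : ∀ c, |X c| ≤ τ * ω c)
    (hresω : ∀ m, |∑ c, ω c * G c m + ∑ l, ζ l * H l m| ≤ tolω ∨ w m = 0)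
    (hres : ∀ m, |∑ c, X c * G c m + ∑ l, Z l * H l m - (if m = m0 then T else 0)| ≤ tol ∨
      w m = 0) :
    T * |w m0| ≤ τ * (∑ c, ω c * β c + κ2 * ∑ l, |ζ l| + tolω * (Fintype.card M * r))
      + ∑ c, |X c| * β c + κ2 * ∑ l, |Z l| + tol * (Fintype.card M * r) := by
  -- general bounds
  have hbw : ∀ (v : M → ℝ) (t : ℝ), 0 ≤ t → (∀ m, |v m| ≤ t ∨ w m = 0) →
      |∑ m, w m * v m| ≤ t * (Fintype.card M * r) := by
    intro v t ht hv
    calc |∑ m, w m * v m| ≤ ∑ m, |w m * v m| := abs_sum_le_sum_abs _ _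
      _ ≤ ∑ m : M, r * t := by
          refine sum_le_sum fun m _ => ?_
          rw [abs_mul]
          rcases hv m with h | h
          · exact mul_le_mul (hw m) h (abs_nonneg _) hr
          · rw [h, abs_zero, zero_mul]
            exact mul_nonneg hr ht
      _ = t * (Fintype.card M * r) := by
          rw [sum_const, card_univ, nsmul_eq_mul]
          ring
  have hbz : ∀ (v : κ → ℝ), |∑ l, v l * ∑ m, H l m * w m| ≤ κ2 * ∑ l, |v l| := by
    intro v
    calc |∑ l, v l * ∑ m, H l m * w m| ≤ ∑ l, |v l * ∑ m, H l m * w m| := abs_sum_le_sum_abs _ _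
      _ ≤ ∑ l, κ2 * |v l| := by
          refine sum_le_sum fun l _ => ?_
          rw [abs_mul, mul_comm]
          exact mul_le_mul_of_nonneg_right (hH l) (abs_nonneg _)
      _ = κ2 * ∑ l, |v l| := by rw [mul_sum]
  set y : ι → ℝ := fun c => ∑ m, G c m * w m + β c with hy
  -- the first combination
  have h1 : ∑ c, ω c * y c ≤
      ∑ c, ω c * β c + κ2 * ∑ l, |ζ l| + tolω * (Fintype.card M * r) := by
    have e1 : ∑ c, ω c * y c = ∑ m, w m * (∑ c, ω c * G c m + ∑ l, ζ l * H l m)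
        - ∑ l, ζ l * ∑ m, H l m * w m + ∑ c, ω c * β c := by
      rw [lin_swap H w ζ]
      simp only [hy, mul_add, sum_add_distrib]
      rw [lin_swap G w ω]
      ring
    have h2 := hbw _ tolω htω hresω
    have h3 := hbz ζ
    have h4 := le_abs_self (∑ m, w m * (∑ c, ω c * G c m + ∑ l, ζ l * H l m))
    have h5 := neg_abs_le (∑ l, ζ l * ∑ m, H l m * w m)
    rw [e1]
    linarith
  have h6 : ∑ c, |X c| * y c ≤ τ * ∑ c, ω c * y c := by
    rw [mul_sum]
    refine sum_le_sum fun c _ => ?_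
    rw [← mul_assoc]
    exact mul_le_mul_of_nonneg_right (hX c) (hG c)
  have e2 : T * w m0 = ∑ c, X c * y c - ∑ c, X c * β c + ∑ l, Z l * ∑ m, H l m * w m
      - ∑ m, w m * (∑ c, X c * G c m + ∑ l, Z l * H l m - (if m = m0 then T else 0)) := by
    rw [lin_swap H w Z]
    simp only [hy, mul_add, mul_sub, sum_add_distrib, sum_sub_distrib]
    rw [lin_swap G w X]
    simp only [mul_ite, mul_zero, sum_ite_eq', mem_univ, if_true]
    ring
  have h7 := hbw _ tol ht hres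
  have h8 := hbz Z
  have h9 : |∑ c, X c * y c| ≤ ∑ c, |X c| * y c := by
    refine (abs_sum_le_sum_abs _ _).trans (sum_le_sum fun c _ => ?_)
    rw [abs_mul, abs_of_nonneg (hG c : 0 ≤ y c)]
  have h10 : |∑ c, X c * β c| ≤ ∑ c, |X c| * β c := by
    refine (abs_sum_le_sum_abs _ _).trans (sum_le_sum fun c _ => ?_)
    rw [abs_mul, abs_of_nonneg (hβ c)]
  have h11 : τ * ∑ c, ω c * y c ≤
      τ * (∑ c, ω c * β c + κ2 * ∑ l, |ζ l| + tolω * (Fintype.card M * r)) :=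
    mul_le_mul_of_nonneg_left h1 hτ
  have h12 : T * |w m0| = |T * w m0| := by rw [abs_mul, abs_of_nonneg hT]
  rw [h12, e2]
  rw [abs_le] at h7 h8 h9 h10
  rw [abs_le]
  constructor <;> linarith [h7.1, h7.2, h8.1, h8.2, h9.1, h9.2, h10.1, h10.2]

end Pool.Agent.H834R5.LUC
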