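import Pool.Agent.H834R5.LUC.X0
import Pool.Agent.H834R5.LUC.X1
import Pool.Agent.H834R5.LUC.X2
import Pool.Agent.H834R5.LUC.X3
import Pool.Agent.H834R5.LUC.Geo
import Pool.Agent.H834R5.LUC.Lin

/-! # A locked unit chain: the contraction estimate -/

set_option autoImplicit false
set_option maxHeartbeats 4000000
set_option maxRecDepth 10000

namespace Pool.Agent.H834R5.LUC

open Pool.Agent.H282R2

/-! ### integer vectors and real vectors -/

theorem toE_0 (v : I3) : toE v 0 = v.1 := rfl
theorem toE_1 (v : I3) : toE v 1 = v.2.1 := rfl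
theorem toE_2 (v : I3) : toE v 2 = v.2.2 := rfl

/-- difference of two data points -/
theorem pt_sub (i j : ℕ) : pt i - pt j = (1 / 10 ^ 15 : ℝ) • toE (sub3 (PI i) (PI j)) := by
  apply ext3 <;> simp [pt, toE, sub3] <;> ring

theorem cr_toE (u v : I3) (c d : ℝ) : cr (c • toE u) (d • toE v) = (c * d) • toE (cr3 u v) := by
  apply ext3 <;> simp [toE, cr3] <;> ring

theorem dt_toE (u v w : I3) (a b c : ℝ) :
    dt (a • toE u) (b • toE v) (c • toE w) = a * b * c * (det3 u v w : ℤ) := by
  simp [dt, toE, det3, dot3, cr3]; ring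

theorem normsq_toE (u : I3) (c : ℝ) : ‖c • toE u‖ ^ 2 = c ^ 2 * (dot3 u u : ℤ) := by
  rw [norm_sq3]; simp [toE, dot3]; ring

/-- product of an integer vector and a real vector -/
noncomputable def ip (v : I3) (u : E3) : ℝ := v.1 * u 0 + v.2.1 * u 1 + v.2.2 * u 2

theorem inner_toE (v : I3) (u : E3) (c : ℝ) : (inner ℝ (c • toE v) u : ℝ) = c * ip v u := by
  rw [inner3]; simp [toE, ip]; ring

theorem sum_ite_val (a : ℕ) (ha : a < 23) (f : ℕ → ℝ) :
    ∑ k : Fin 23, (if (k : ℕ) = a then f k else 0) = f a := by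
  rw [Finset.sum_range (f := fun k => if k = a then f k else 0) |>.symm]
  rw [Finset.sum_ite_eq']
  simp [ha]

theorem gsum (w : ℕ × ℕ × ℤ) (N : I3 × I3 × I3) (h1 : w.1 + 1 < w.2.1) (h2 : w.2.1 < 22)
    (W : ℕ → E3) :
    ∑ m : Fin 23 × Fin 3, (gwf w N m.1 m.2 : ℝ) * (W m.1) m.2 =
      ip N.1 (W w.2.1 - W w.1) + ip N.2.1 (W (w.1 + 1) - W w.1)
        + ip N.2.2 (W (w.2.1 + 1) - W w.2.1) := by
  rw [Fintype.sum_prod_type]
  have e : ∀ k : Fin 23, ∑ t : Fin 3, (gwf w N k t : ℝ) * (W k) t =
      (if (k : ℕ) = w.2.1 then (fun k => ip N.1 (W k) - ip N.2.2 (W k)) (k : ℕ) else 0) +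
      (if (k : ℕ) = w.1 then (fun k => -ip N.1 (W k) - ip N.2.1 (W k)) (k : ℕ) else 0) +
      (if (k : ℕ) = w.1 + 1 then (fun k => ip N.2.1 (W k)) (k : ℕ) else 0) +
      (if (k : ℕ) = w.2.1 + 1 then (fun k => ip N.2.2 (W k)) (k : ℕ) else 0) := by
    intro k
    rw [Fin.sum_univ_three]
    have p0 : ∀ v : I3, pick v ((0 : Fin 3) : ℕ) = v.1 := fun v => rfl
    have p1 : ∀ v : I3, pick v ((1 : Fin 3) : ℕ) = v.2.1 := fun v => rfl
    have p2 : ∀ v : I3, pick v ((2 : Fin 3) : ℕ) = v.2.2 := fun v => rfl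
    simp only [gwf, p0, p1, p2, ip]
    split_ifs <;> push_cast <;> ring
  rw [Finset.sum_congr rfl fun k _ => e k, Finset.sum_add_distrib, Finset.sum_add_distrib,
    Finset.sum_add_distrib,
    sum_ite_val w.2.1 (by omega) (fun k => ip N.1 (W k) - ip N.2.2 (W k)),
    sum_ite_val w.1 (by omega) (fun k => -ip N.1 (W k) - ip N.2.1 (W k)),
    sum_ite_val (w.1 + 1) (by omega) (fun k => ip N.2.1 (W k)),
    sum_ite_val (w.2.1 + 1) (by omega) (fun k => ip N.2.2 (W k))]
  simp only [ip, PiLp.sub_apply]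
  ring

theorem hsum (p : ℕ × I3) (h : p.1 < 22) (W : ℕ → E3) :
    ∑ m : Fin 23 × Fin 3, (hbf p m.1 m.2 : ℝ) * (W m.1) m.2 =
      ip p.2 (W (p.1 + 1) - W p.1) := by
  rw [Fintype.sum_prod_type]
  have e : ∀ k : Fin 23, ∑ t : Fin 3, (hbf p k t : ℝ) * (W k) t =
      (if (k : ℕ) = p.1 + 1 then (fun k => ip p.2 (W k)) (k : ℕ) else 0) +
      (if (k : ℕ) = p.1 then (fun k => -ip p.2 (W k)) (k : ℕ) else 0) := by
    intro k
    rw [Fin.sum_univ_three]
    have p0 : ∀ v : I3, pick v ((0 : Fin 3) : ℕ) = v.1 := fun v => rfl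
    have p1 : ∀ v : I3, pick v ((1 : Fin 3) : ℕ) = v.2.1 := fun v => rfl
    have p2 : ∀ v : I3, pick v ((2 : Fin 3) : ℕ) = v.2.2 := fun v => rfl
    simp only [hbf, p0, p1, p2, ip]
    split_ifs <;> push_cast <;> ring
  rw [Finset.sum_congr rfl fun k _ => e k, Finset.sum_add_distrib,
    sum_ite_val (p.1 + 1) (by omega) (fun k => ip p.2 (W k)),
    sum_ite_val p.1 (by omega) (fun k => -ip p.2 (W k))]
  simp only [ip, PiLp.sub_apply]
  ring

/-! ### lists -/

theorem dotL_sum : ∀ (n : ℕ) (l1 l2 : List ℤ), l1.length = n → l2.length = n →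
    dotL l1 l2 = ∑ c : Fin n, l1.getD c 0 * l2.getD c 0 := by
  intro n
  induction n with
  | zero =>
    intro l1 l2 h1 _
    have : l1 = [] := List.eq_nil_of_length_eq_zero h1
    subst this
    simp [dotL]
  | succ n ih =>
    intro l1 l2 h1 h2
    cases l1 with
    | nil => simp at h1
    | cons a as =>
      cases l2 with
      | nil => simp at h2
      | cons b bs =>
        rw [dotL, ih as bs (by simpa using h1) (by simpa using h2), Fin.sum_univ_succ]
        simp

theorem absDot_sum : ∀ (n : ℕ) (l1 l2 : List ℤ), l1.length = n → l2.length = n →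
    absDot l1 l2 = ∑ c : Fin n, |l1.getD c 0| * l2.getD c 0 := by
  intro n
  induction n with
  | zero =>
    intro l1 l2 h1 _
    have : l1 = [] := List.eq_nil_of_length_eq_zero h1
    subst this
    simp [absDot]
  | succ n ih =>
    intro l1 l2 h1 h2
    cases l1 with
    | nil => simp at h1
    | cons a as =>
      cases l2 with
      | nil => simp at h2
      | cons b bs =>
        rw [absDot, ih as bs (by simpa using h1) (by simpa using h2), Fin.sum_univ_succ]
        simp

theorem absSum_sum : ∀ (n : ℕ) (l1 : List ℤ), l1.length = n →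
    absSum l1 = ∑ c : Fin n, |l1.getD c 0| := by
  intro n
  induction n with
  | zero =>
    intro l1 h1
    have : l1 = [] := List.eq_nil_of_length_eq_zero h1
    subst this
    simp [absSum]
  | succ n ih =>
    intro l1 h1
    cases l1 with
    | nil => simp at h1
    | cons a as =>
      rw [absSum, ih as (by simpa using h1), Fin.sum_univ_succ]
      simp

theorem all2_getD (f : ℤ → ℤ → Bool) : ∀ (n : ℕ) (l1 l2 : List ℤ), l1.length = n → l2.length = n →
    all2 f l1 l2 = true → ∀ c : Fin n, f (l1.getD c 0) (l2.getD c 0) = true := by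
  intro n
  induction n with
  | zero => intro l1 l2 _ _ _ c; exact c.elim0
  | succ n ih =>
    intro l1 l2 h1 h2 h c
    cases l1 with
    | nil => simp at h1
    | cons a as =>
      cases l2 with
      | nil => simp at h2
      | cons b bs =>
        rw [all2, Bool.and_eq_true] at h
        refine Fin.cases ?_ (fun c => ?_) c
        · simpa using h.1
        · simpa using ih as bs (by simpa using h1) (by simpa using h2) h.2 c

theorem chkWalls_getD : ∀ (n : ℕ) (ws : List (ℕ × ℕ × ℤ)) (Ns : List (I3 × I3 × I3)) (bs : List ℤ),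
    ws.length = n → Ns.length = n → bs.length = n → chkWalls ws Ns bs = true →
    ∀ c : Fin n, chkWall (ws.getD c (0, 0, 0)) (Ns.getD c ((0, 0, 0), (0, 0, 0), (0, 0, 0)))
      (bs.getD c 0) = true := by
  intro n
  induction n with
  | zero => intro _ _ _ _ _ _ _ c; exact c.elim0
  | succ n ih =>
    intro ws Ns bs h1 h2 h3 h c
    cases ws with
    | nil => simp at h1
    | cons w ws =>
      cases Ns with
      | nil => simp at h2
      | cons N Ns =>
        cases bs with
        | nil => simp at h3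
        | cons b bs =>
          rw [chkWalls, Bool.and_eq_true] at h
          refine Fin.cases ?_ (fun c => ?_) c
          · simpa using h.1
          · simpa using ih ws Ns bs (by simpa using h1) (by simpa using h2) (by simpa using h3) h.2 c

/-- wall number `c` -/
def wl (c : Fin 42) : ℕ × ℕ × ℤ := walls.getD c (0, 0, 0)
/-- its approximate gradient -/
def nl (c : Fin 42) : I3 × I3 × I3 := NL.getD c ((0, 0, 0), (0, 0, 0), (0, 0, 0))
/-- its slack bound -/
def bb (c : Fin 42) : ℤ := bbL.getD c 0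
/-- bar number `l` -/
def bl (l : Fin 22) : ℕ × I3 := BL.getD l (0, 0, 0, 0)

theorem wl_mem (c : Fin 42) : wl c ∈ walls := by
  have h : (c : ℕ) < walls.length := by rw [len_ok.1]; exact c.2
  rw [wl, List.getD_eq_getElem _ _ h]
  exact List.getElem_mem h

theorem bl_mem (l : Fin 22) : bl l ∈ BL := by
  have h : (l : ℕ) < BL.length := by rw [len_ok.2.2.2]; exact l.2
  rw [bl, List.getD_eq_getElem _ _ h]
  exact List.getElem_mem h

theorem wall_ok (c : Fin 42) : chkWall (wl c) (nl c) (bb c) = true :=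
  chkWalls_getD 42 walls NL bbL len_ok.1 len_ok.2.1 len_ok.2.2.1 chkWalls_ok c

theorem bar_ok (l : Fin 22) : chkBar (bl l) = true :=
  List.all_eq_true.1 chkBars_ok _ (bl_mem l)

theorem colW_length (k t : ℕ) : (colW k t).length = 42 := by
  rw [colW, List.length_zipWith, len_ok.1, len_ok.2.1]; rfl

theorem colB_length (k t : ℕ) : (colB k t).length = 22 := by
  rw [colB, List.length_map, len_ok.2.2.2]

theorem colW_getD (k t : ℕ) (c : Fin 42) : (colW k t).getD c 0 = gwf (wl c) (nl c) k t := by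
  have h1 : (c : ℕ) < walls.length := by rw [len_ok.1]; exact c.2
  have h2 : (c : ℕ) < NL.length := by rw [len_ok.2.1]; exact c.2
  have h3 : (c : ℕ) < (colW k t).length := by rw [colW_length]; exact c.2
  rw [List.getD_eq_getElem _ _ h3, wl, nl, List.getD_eq_getElem _ _ h1,
    List.getD_eq_getElem _ _ h2]
  simp [colW]

theorem colB_getD (k t : ℕ) (l : Fin 22) : (colB k t).getD l 0 = hbf (bl l) k t := by
  have h1 : (l : ℕ) < BL.length := by rw [len_ok.2.2.2]; exact l.2
  have h3 : (l : ℕ) < (colB k t).length := by rw [colB_length]; exact l.2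
  rw [List.getD_eq_getElem _ _ h3, bl, List.getD_eq_getElem _ _ h1]
  simp [colB]

theorem CT_mem (k : Fin 23) (t : Fin 3) : (3 * (k : ℕ) + t, colW k t, colB k t) ∈ CT := by
  rw [CT_ok, List.mem_map]
  refine ⟨3 * (k : ℕ) + t, List.mem_range.2 (by omega), ?_⟩
  have h1 : (3 * (k : ℕ) + t) / 3 = k := by omega
  have h2 : (3 * (k : ℕ) + t) % 3 = t := by omega
  rw [h1, h2]

end Pool.Agent.H834R5.LUC
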