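import Pool.Agent.H834R5.LUC.Core

/-! # A locked unit chain: the contraction estimate, second part -/

set_option autoImplicit false
set_option maxHeartbeats 4000000
set_option maxRecDepth 10000

namespace Pool.Agent.H834R5.LUC

open Pool.Agent.H282R2

theorem norm_le_comp {u : E3} {e : ℝ} (he : 0 ≤ e) (h0 : |u 0| ≤ e) (h1 : |u 1| ≤ e)
    (h2 : |u 2| ≤ e) : ‖u‖ ≤ 2 * e := by
  have h := norm_sq3 u
  have a0 : u 0 * u 0 ≤ e * e := by rw [← abs_mul_abs_self]; gcongr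
  have a1 : u 1 * u 1 ≤ e * e := by rw [← abs_mul_abs_self]; gcongr
  have a2 : u 2 * u 2 ≤ e * e := by rw [← abs_mul_abs_self]; gcongr
  apply le_of_sq_le_sq _ (by positivity)
  nlinarith [mul_nonneg he he]

theorem dist_pt (i j : ℕ) (hi : i ≤ 22) (hj : j ≤ 22) : ‖pt i - pt j‖ ≤ 13 / 10 := by
  have h := List.all_eq_true.1 (List.all_eq_true.1 chkDist_ok j (List.mem_range.2 (by omega))) i
    (List.mem_range.2 (by omega))
  rw [decide_eq_true_eq] at h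
  rw [pt_sub]
  have h2 := normsq_toE (sub3 (PI i) (PI j)) (1 / 10 ^ 15)
  have h3 : ((dot3 (sub3 (PI i) (PI j)) (sub3 (PI i) (PI j)) : ℤ) : ℝ) ≤ 169 * 10 ^ 28 := by
    exact_mod_cast h
  apply le_of_sq_le_sq _ (by norm_num)
  rw [h2]
  nlinarith

theorem len_pt (l : ℕ) (hl : l < 22) : |‖pt (l + 1) - pt l‖ ^ 2 - 1| ≤ 1 / 10 ^ 14 := by
  have h := List.all_eq_true.1 chkLen_ok l (List.mem_range.2 hl)
  rw [decide_eq_true_eq] at h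
  rw [pt_sub, normsq_toE]
  have h3 : |((dot3 (sub3 (PI (l + 1)) (PI l)) (sub3 (PI (l + 1)) (PI l)) : ℤ) : ℝ) - 10 ^ 30| ≤
      10 ^ 16 := by
    exact_mod_cast h
  rw [abs_le] at h3 ⊢
  constructor <;> nlinarith [h3.1, h3.2]

theorem norm_link (l : ℕ) (hl : l < 22) : ‖pt (l + 1) - pt l‖ ≤ 101 / 100 := by
  have h := (abs_le.1 (len_pt l hl)).2
  apply le_of_sq_le_sq _ (by norm_num)
  nlinarith

/-- comparison of a rounded gradient -/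
theorem grad_close (s : ℤ) (X N : I3) (h0 : |s * X.1 * 10 ^ 7 - N.1 * 10 ^ 30| ≤ 10 ^ 30)
    (h1 : |s * X.2.1 * 10 ^ 7 - N.2.1 * 10 ^ 30| ≤ 10 ^ 30)
    (h2 : |s * X.2.2 * 10 ^ 7 - N.2.2 * 10 ^ 30| ≤ 10 ^ 30) :
    ‖(s : ℝ) • ((1 / 10 ^ 15 * (1 / 10 ^ 15) : ℝ) • toE X) - (1 / 10 ^ 7 : ℝ) • toE N‖ ≤
      2 / 10 ^ 7 := by
  have key : ∀ x y : ℤ, |s * x * 10 ^ 7 - y * 10 ^ 30| ≤ 10 ^ 30 →
      |(s : ℝ) * ((1 / 10 ^ 15 * (1 / 10 ^ 15)) * (x : ℝ)) - (1 / 10 ^ 7) * (y : ℝ)| ≤ 1 / 10 ^ 7 := by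
    intro x y h
    have h3 : |(s : ℝ) * x * 10 ^ 7 - y * 10 ^ 30| ≤ 10 ^ 30 := by exact_mod_cast h
    rw [abs_le] at h3 ⊢
    constructor <;> nlinarith [h3.1, h3.2]
  have e : (2 / 10 ^ 7 : ℝ) = 2 * (1 / 10 ^ 7) := by ring
  rw [e]
  refine norm_le_comp (by positivity) ?_ ?_ ?_
  · simpa [toE] using key _ _ h0
  · simpa [toE] using key _ _ h1
  · simpa [toE] using key _ _ h2

/-- the linear form of a wall -/
noncomputable def GR (c : Fin 42) (m : Fin 23 × Fin 3) : ℝ :=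
  (gwf (wl c) (nl c) m.1 m.2 : ℝ) / 10 ^ 7

/-- the linear form of a link -/
noncomputable def HR (l : Fin 22) (m : Fin 23 × Fin 3) : ℝ :=
  (hbf (bl l) m.1 m.2 : ℝ) / 10 ^ 7

/-- the displacement coordinates -/
noncomputable def wv (x : ℕ → E3) (m : Fin 23 × Fin 3) : ℝ := (x m.1 - pt m.1) m.2

theorem sumG (x : ℕ → E3) (c : Fin 42) (h1 : (wl c).1 + 1 < (wl c).2.1) (h2 : (wl c).2.1 < 22) :
    ∑ m, GR c m * wv x m =
      (inner ℝ ((1 / 10 ^ 7 : ℝ) • toE (nl c).1)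
          ((x (wl c).2.1 - pt (wl c).2.1) - (x (wl c).1 - pt (wl c).1)) : ℝ) +
      inner ℝ ((1 / 10 ^ 7 : ℝ) • toE (nl c).2.1)
          ((x ((wl c).1 + 1) - pt ((wl c).1 + 1)) - (x (wl c).1 - pt (wl c).1)) +
      inner ℝ ((1 / 10 ^ 7 : ℝ) • toE (nl c).2.2)
          ((x ((wl c).2.1 + 1) - pt ((wl c).2.1 + 1)) - (x (wl c).2.1 - pt (wl c).2.1)) := by
  have h := gsum (wl c) (nl c) h1 h2 (fun k => x k - pt k)
  rw [inner_toE, inner_toE, inner_toE]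
  have e : ∑ m, GR c m * wv x m =
      (1 / 10 ^ 7) * ∑ m : Fin 23 × Fin 3, (gwf (wl c) (nl c) m.1 m.2 : ℝ) *
        ((fun k => x k - pt k) (m.1 : ℕ)) m.2 := by
    rw [Finset.mul_sum]
    refine Finset.sum_congr rfl fun m _ => ?_
    rw [GR, wv]; ring
  rw [e, h]; ring

theorem sumH (x : ℕ → E3) (l : Fin 22) (h : (bl l).1 < 22) :
    ∑ m, HR l m * wv x m =
      (inner ℝ ((1 / 10 ^ 7 : ℝ) • toE (bl l).2)
        ((x ((bl l).1 + 1) - pt ((bl l).1 + 1)) - (x (bl l).1 - pt (bl l).1)) : ℝ) := by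
  have h := hsum (bl l) h (fun k => x k - pt k)
  rw [inner_toE]
  have e : ∑ m, HR l m * wv x m =
      (1 / 10 ^ 7) * ∑ m : Fin 23 × Fin 3, (hbf (bl l) m.1 m.2 : ℝ) *
        ((fun k => x k - pt k) (m.1 : ℕ)) m.2 := by
    rw [Finset.mul_sum]
    refine Finset.sum_congr rfl fun m _ => ?_
    rw [HR, wv]; ring
  rw [e, h]

theorem norm_diff {x : ℕ → E3} (hr : ∀ k ≤ 22, ‖x k - pt k‖ ≤ 1 / 10 ^ 6) (i j : ℕ) (hi : i ≤ 22)
    (hj : j ≤ 22) : ‖(x i - pt i) - (x j - pt j)‖ ≤ 2 / 10 ^ 6 := by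
  have h1 := hr i hi
  have h2 := hr j hj
  calc _ ≤ ‖x i - pt i‖ + ‖x j - pt j‖ := norm_sub_le _ _
    _ ≤ 2 / 10 ^ 6 := by linarith

theorem hG (x : ℕ → E3) (hr : ∀ k ≤ 22, ‖x k - pt k‖ ≤ 1 / 10 ^ 6)
    (hV : ∀ w ∈ walls, 0 ≤ (w.2.2 : ℝ) * vol x w.1 w.2.1) (c : Fin 42) :
    0 ≤ ∑ m, GR c m * wv x m + (bb c : ℝ) / 10 ^ 14 := by
  have hw := wall_ok c
  have hm := hV _ (wl_mem c)
  rcases hwl : wl c with ⟨i, j, s⟩
  rw [hwl] at hw hm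
  simp only [chkWall, Bool.and_eq_true, decide_eq_true_eq, Bool.or_eq_true, beq_iff_eq] at hw
  obtain ⟨⟨⟨⟨⟨⟨⟨h1, h2⟩, h3⟩, ⟨n11, n12⟩, n13⟩, ⟨n21, n22⟩, n23⟩, ⟨n31, n32⟩, n33⟩, ⟨b1, b2⟩, b3⟩, _⟩ := hw
  rw [sumG x c (by rw [hwl]; exact h1) (by rw [hwl]; exact h2), hwl]
  have hj : j < 22 := h2
  have hij : i + 1 < j := h1
  simp only
  have hs : (s : ℝ) = 1 ∨ (s : ℝ) = -1 := by
    rcases h3 with h | h
    · left; rw [h]; norm_num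
    · right; rw [h]; norm_num
  refine wall_gen (pt (i + 1) - pt i) (pt (j + 1) - pt j) (pt j - pt i) _ _ _ _ _ _ (s : ℝ) _ hs
    (norm_link i (by omega)) (norm_link j hj) (dist_pt j i (by omega) (by omega))
    (norm_diff hr (i + 1) i (by omega) (by omega)) (norm_diff hr (j + 1) j (by omega) (by omega))
    (norm_diff hr j i (by omega) (by omega)) ?_ ?_ ?_ ?_ ?_
  · rw [pt_sub, pt_sub, cr_toE]
    exact grad_close _ _ _ n11 n12 n13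
  · rw [pt_sub, pt_sub, cr_toE]
    exact grad_close _ _ _ n21 n22 n23
  · rw [pt_sub, pt_sub, cr_toE]
    exact grad_close _ _ _ n31 n32 n33
  · rw [pt_sub, pt_sub, pt_sub, dt_toE]
    have h4 : (s : ℝ) * (det3 (sub3 (PI (i + 1)) (PI i)) (sub3 (PI (j + 1)) (PI j))
        (sub3 (PI j) (PI i)) : ℤ) + 2 * 10 ^ 34 ≤ (bb c : ℝ) * 10 ^ 31 := by exact_mod_cast b1
    nlinarith
  · have e1 : (pt (i + 1) - pt i) + ((x (i + 1) - pt (i + 1)) - (x i - pt i)) = x (i + 1) - x i := by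
      abel
    have e2 : (pt (j + 1) - pt j) + ((x (j + 1) - pt (j + 1)) - (x j - pt j)) = x (j + 1) - x j := by
      abel
    have e3 : (pt j - pt i) + ((x j - pt j) - (x i - pt i)) = x j - x i := by abel
    rw [e1, e2, e3]
    exact hm

theorem hH (x : ℕ → E3) (hU : IsUnit 22 x) (hr : ∀ k ≤ 22, ‖x k - pt k‖ ≤ 1 / 10 ^ 6) (l : Fin 22) :
    |∑ m, HR l m * wv x m| ≤ 3 / 10 ^ 12 := by
  have hb := bar_ok l
  rcases hbl : bl l with ⟨p, H⟩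
  rw [hbl] at hb
  simp only [chkBar, Bool.and_eq_true, decide_eq_true_eq] at hb
  obtain ⟨⟨⟨h1, h2⟩, h3⟩, h4⟩ := hb
  rw [sumH x l (by rw [hbl]; exact h1), hbl]
  simp only
  have hD := len_pt p h1
  have hα := norm_diff hr (p + 1) p (by omega) (by omega)
  obtain ⟨α, hαd⟩ : ∃ α, α = (x (p + 1) - pt (p + 1)) - (x p - pt p) := ⟨_, rfl⟩
  obtain ⟨Dv, hDd⟩ : ∃ Dv, Dv = pt (p + 1) - pt p := ⟨_, rfl⟩
  have e1 : Dv + α = x (p + 1) - x p := by rw [hαd, hDd]; abel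
  have hu : ‖Dv + α‖ = 1 := by
    rw [e1, ← dist_eq_norm, dist_comm]; exact hU p h1
  rw [← hαd] at hα ⊢
  rw [← hDd] at hD
  have h5 : ‖Dv + α‖ ^ 2 = ‖Dv‖ ^ 2 + 2 * inner ℝ Dv α + ‖α‖ ^ 2 := norm_add_sq_real _ _
  rw [hu] at h5
  have h6 : ‖Dv - (1 / 10 ^ 7 : ℝ) • toE H‖ ≤ 2 / 10 ^ 7 := by
    have key : ∀ y z : ℤ, |y * 10 ^ 7 - z * 10 ^ 15| ≤ 10 ^ 15 →
        |(1 / 10 ^ 15) * (y : ℝ) - (1 / 10 ^ 7) * (z : ℝ)| ≤ 1 / 10 ^ 7 := by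
      intro y z h
      have h3 : |(y : ℝ) * 10 ^ 7 - z * 10 ^ 15| ≤ 10 ^ 15 := by exact_mod_cast h
      rw [abs_le] at h3 ⊢
      constructor <;> nlinarith [h3.1, h3.2]
    have e : (2 / 10 ^ 7 : ℝ) = 2 * (1 / 10 ^ 7) := by ring
    rw [e, hDd, pt_sub]
    refine norm_le_comp (by positivity) ?_ ?_ ?_
    · simpa [toE] using key _ _ h2
    · simpa [toE] using key _ _ h3
    · simpa [toE] using key _ _ h4
  have h7 : |(inner ℝ (Dv - (1 / 10 ^ 7 : ℝ) • toE H) α : ℝ)| ≤ 2 / 10 ^ 7 * (2 / 10 ^ 6) :=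
    (abs_real_inner_le_norm _ _).trans (by gcongr)
  rw [inner_sub_left] at h7
  have h8 : ‖α‖ ^ 2 ≤ (2 / 10 ^ 6) ^ 2 := by gcongr
  have h9 : 0 ≤ ‖α‖ ^ 2 := by positivity
  rw [abs_le] at h7 hD ⊢
  constructor <;> nlinarith [h7.1, h7.2, hD.1, hD.2]

end Pool.Agent.H834R5.LUC
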