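import Pool.Agent.H834R5.LUC.Core2

/-! # A locked unit chain: the contraction estimate, third part -/

set_option autoImplicit false
set_option maxHeartbeats 4000000
set_option maxRecDepth 10000

namespace Pool.Agent.H834R5.LUC

open Pool.Agent.H282R2

/-- all rows -/
def XL : List (ℕ × List ℤ × List ℤ) := XL0 ++ XL1 ++ XL2 ++ XL3

theorem XL_ok : ∀ p ∈ XL, chkRow p = true := by
  intro p hp
  simp only [XL, List.mem_append] at hp
  rcases hp with ((h | h) | h) | h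
  · exact List.all_eq_true.1 XL0_ok p h
  · exact List.all_eq_true.1 XL1_ok p h
  · exact List.all_eq_true.1 XL2_ok p h
  · exact List.all_eq_true.1 XL3_ok p h

theorem XL_all : ((List.range 69).all fun m => gauge m || (XL.map Prod.fst).contains m) = true := by
  decide +kernel

/-- number of a coordinate -/
def num (m : Fin 23 × Fin 3) : ℕ := 3 * (m.1 : ℕ) + m.2

theorem num_inj {m m' : Fin 23 × Fin 3} (h : num m = num m') : m = m' := by
  obtain ⟨a, b⟩ := m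
  obtain ⟨a', b'⟩ := m'
  simp only [num] at h
  have h1 : (a : ℕ) = a' := by omega
  have h2 : (b : ℕ) = b' := by omega
  rw [Fin.ext h1, Fin.ext h2]

theorem num_lt (m : Fin 23 × Fin 3) : num m < 69 := by
  unfold num; omega

theorem pt7 : pt 7 = 0 := by
  have h : PI 7 = (0, 0, 0) := by decide +kernel
  rw [pt, h]
  apply ext3 <;> simp [toE]

theorem pt8 : pt 8 = !₂[(1 : ℝ), 0, 0] := by
  have h : PI 8 = (1000000000000000, 0, 0) := by decide +kernel
  rw [pt, h]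
  apply ext3
  · simp [toE]; norm_num
  · simp [toE]
  · simp [toE]

theorem pt9 : pt 9 2 = 0 := by
  have h : (PI 9).2.2 = 0 := by decide +kernel
  rw [pt]
  simp [toE, h]

theorem wv_gauge (x : ℕ → E3) (h7 : x 7 = 0) (h8 : x 8 = !₂[(1 : ℝ), 0, 0]) (h9 : x 9 2 = 0)
    (m : Fin 23 × Fin 3) (h : gauge (num m) = true) : wv x m = 0 := by
  obtain ⟨a, b⟩ := m
  simp only [gauge, num, Bool.or_eq_true, beq_iff_eq] at h
  rw [wv]
  simp only
  rcases h with (h | h) | h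
  · have : (a : ℕ) = 7 := by omega
    rw [this, h7, pt7]; simp
  · have : (a : ℕ) = 8 := by omega
    rw [this, h8, pt8]; simp
  · have h1 : (a : ℕ) = 9 := by omega
    have h2 : b = 2 := by apply Fin.ext; simp; omega
    rw [h1, h2, PiLp.sub_apply, h9, pt9, sub_zero]

theorem OM_len : OMw.length = 42 ∧ OMb.length = 22 := by
  have h := chkOM_ok
  simp only [chkOM, Bool.and_eq_true, beq_iff_eq] at h
  exact ⟨h.1.1.1.1, h.1.1.1.2⟩

theorem dotW (k t : ℕ) (l : List ℤ) (h : l.length = 42) :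
    (dotL (colW k t) l : ℝ) = ∑ c : Fin 42, (gwf (wl c) (nl c) k t : ℝ) * (l.getD c 0 : ℤ) := by
  rw [dotL_sum 42 _ _ (colW_length k t) h]
  push_cast
  refine Finset.sum_congr rfl fun c _ => ?_
  rw [colW_getD]

theorem dotB (k t : ℕ) (l : List ℤ) (h : l.length = 22) :
    (dotL (colB k t) l : ℝ) = ∑ c : Fin 22, (hbf (bl c) k t : ℝ) * (l.getD c 0 : ℤ) := by
  rw [dotL_sum 22 _ _ (colB_length k t) h]
  push_cast
  refine Finset.sum_congr rfl fun c _ => ?_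
  rw [colB_getD]

/-- the combination of the forms at coordinate `m` -/
theorem comb_eq (m : Fin 23 × Fin 3) (l l' : List ℤ) (h : l.length = 42) (h' : l'.length = 22)
    (s : ℝ) :
    ∑ c : Fin 42, (((l.getD c 0 : ℤ) : ℝ) / s) * GR c m +
      ∑ c : Fin 22, (((l'.getD c 0 : ℤ) : ℝ) / s) * HR c m =
    ((dotL (colW m.1 m.2) l + dotL (colB m.1 m.2) l' : ℤ) : ℝ) / (s * 10 ^ 7) := by
  rw [Int.cast_add, dotW _ _ _ h, dotB _ _ _ h', add_div, Finset.sum_div, Finset.sum_div]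
  congr 1
  · refine Finset.sum_congr rfl fun c _ => ?_
    rw [GR, div_mul_div_comm]; ring_nf
  · refine Finset.sum_congr rfl fun c _ => ?_
    rw [HR, div_mul_div_comm]; ring_nf

theorem coord_bound (x : ℕ → E3) (hU : IsUnit 22 x) (h7 : x 7 = 0)
    (h8 : x 8 = !₂[(1 : ℝ), 0, 0]) (h9 : x 9 2 = 0) (hr : ∀ k ≤ 22, ‖x k - pt k‖ ≤ 1 / 10 ^ 6)
    (hV : ∀ w ∈ walls, 0 ≤ (w.2.2 : ℝ) * vol x w.1 w.2.1) (m0 : Fin 23 × Fin 3) :
    |wv x m0| ≤ 3 / 10 ^ 7 := by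
  by_cases hg : gauge (num m0) = true
  · rw [wv_gauge x h7 h8 h9 m0 hg]; norm_num
  have h0 := List.all_eq_true.1 XL_all (num m0) (List.mem_range.2 (num_lt m0))
  rw [Bool.or_eq_true, or_iff_right hg, List.contains_iff_mem, List.mem_map] at h0
  obtain ⟨⟨mm, Xs, Zs⟩, hp, hpe⟩ := h0
  simp only at hpe
  subst hpe
  have hrow := XL_ok _ hp
  simp only [chkRow, Bool.and_eq_true, beq_iff_eq, decide_eq_true_eq] at hrow
  obtain ⟨⟨⟨⟨⟨r1, r2⟩, r3⟩, r4⟩, r5⟩, r6⟩ := hrow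
  have hom := chkOM_ok
  simp only [chkOM, Bool.and_eq_true, beq_iff_eq, decide_eq_true_eq] at hom
  obtain ⟨⟨⟨⟨o1, o2⟩, o3⟩, o4⟩, o5⟩ := hom
  have hbb : ∀ c : Fin 42, 0 ≤ bb c := by
    intro c
    have hw := wall_ok c
    simp only [chkWall, Bool.and_eq_true, decide_eq_true_eq] at hw
    exact hw.1.2.2
  have main := lin_bound GR HR (wv x) (fun c => (bb c : ℝ) / 10 ^ 14) (3 / 10 ^ 12) (1 / 10 ^ 6)
    (8900000 / (10 ^ 10 * 10 ^ 7)) (13000000 / (10 ^ 5 * 10 ^ 7)) 1 48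
    (fun c => ((OMw.getD c 0 : ℤ) : ℝ) / 10 ^ 10) (fun c => ((Xs.getD c 0 : ℤ) : ℝ) / 10 ^ 5)
    (fun l => ((OMb.getD l 0 : ℤ) : ℝ) / 10 ^ 10) (fun l => ((Zs.getD l 0 : ℤ) : ℝ) / 10 ^ 5) m0
    (fun c => by have := hbb c; positivity) (by norm_num) (by norm_num) (by norm_num) (by norm_num)
    (by norm_num) (by norm_num) (fun c => hG x hr hV c) (fun l => hH x hU hr l)
    (fun m => by
      refine le_trans ?_ (hr m.1 (by omega))
      rw [wv, ← Real.norm_eq_abs]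
      exact PiLp.norm_apply_le _ _)
    ?_ ?_ ?_
  · -- the final estimate
    have s1 : ∑ c : Fin 42, ((OMw.getD c 0 : ℤ) : ℝ) / 10 ^ 10 * ((bb c : ℝ) / 10 ^ 14) ≤
        3900000000000000 / 10 ^ 24 := by
      have e := dotL_sum 42 OMw bbL o1 len_ok.2.2.1
      have e1 : ∑ c : Fin 42, ((OMw.getD c 0 : ℤ) : ℝ) / 10 ^ 10 * ((bb c : ℝ) / 10 ^ 14) =
          ((dotL OMw bbL : ℤ) : ℝ) / 10 ^ 24 := by
        rw [e]; push_cast; rw [Finset.sum_div]
        refine Finset.sum_congr rfl fun c _ => ?_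
        rw [bb]; ring
      rw [e1]
      have : ((dotL OMw bbL : ℤ) : ℝ) ≤ 3900000000000000 := by exact_mod_cast o4
      gcongr
    have s2 : ∑ l : Fin 22, |((OMb.getD l 0 : ℤ) : ℝ) / 10 ^ 10| ≤ 35000000000 / 10 ^ 10 := by
      have e := absSum_sum 22 OMb o2
      have e1 : ∑ l : Fin 22, |((OMb.getD l 0 : ℤ) : ℝ) / 10 ^ 10| =
          ((absSum OMb : ℤ) : ℝ) / 10 ^ 10 := by
        rw [e]; push_cast; rw [Finset.sum_div]
        refine Finset.sum_congr rfl fun c _ => ?_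
        rw [abs_div, abs_of_pos (by norm_num : (0 : ℝ) < 10 ^ 10)]
      rw [e1]
      have : ((absSum OMb : ℤ) : ℝ) ≤ 35000000000 := by exact_mod_cast o5
      gcongr
    have s3 : ∑ c : Fin 42, |((Xs.getD c 0 : ℤ) : ℝ) / 10 ^ 5| * ((bb c : ℝ) / 10 ^ 14) ≤
        350000000000 / 10 ^ 19 := by
      have e := absDot_sum 42 Xs bbL r1 len_ok.2.2.1
      have e1 : ∑ c : Fin 42, |((Xs.getD c 0 : ℤ) : ℝ) / 10 ^ 5| * ((bb c : ℝ) / 10 ^ 14) =
          ((absDot Xs bbL : ℤ) : ℝ) / 10 ^ 19 := by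
        rw [e]; push_cast; rw [Finset.sum_div]
        refine Finset.sum_congr rfl fun c _ => ?_
        rw [abs_div, abs_of_pos (by norm_num : (0 : ℝ) < 10 ^ 5), bb]; ring
      rw [e1]
      have : ((absDot Xs bbL : ℤ) : ℝ) ≤ 350000000000 := by exact_mod_cast r5
      gcongr
    have s4 : ∑ l : Fin 22, |((Zs.getD l 0 : ℤ) : ℝ) / 10 ^ 5| ≤ 2100000 / 10 ^ 5 := by
      have e := absSum_sum 22 Zs r2
      have e1 : ∑ l : Fin 22, |((Zs.getD l 0 : ℤ) : ℝ) / 10 ^ 5| =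
          ((absSum Zs : ℤ) : ℝ) / 10 ^ 5 := by
        rw [e]; push_cast; rw [Finset.sum_div]
        refine Finset.sum_congr rfl fun c _ => ?_
        rw [abs_div, abs_of_pos (by norm_num : (0 : ℝ) < 10 ^ 5)]
      rw [e1]
      have : ((absSum Zs : ℤ) : ℝ) ≤ 2100000 := by exact_mod_cast r6
      gcongr
    have hc : (Fintype.card (Fin 23 × Fin 3) : ℝ) = 69 := by simp
    rw [hc] at main
    have m1 : |wv x m0| ≤ 48 * (3900000000000000 / 10 ^ 24 +
        3 / 10 ^ 12 * (35000000000 / 10 ^ 10) + 8900000 / (10 ^ 10 * 10 ^ 7) * (69 * (1 / 10 ^ 6)))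
        + 350000000000 / 10 ^ 19 + 3 / 10 ^ 12 * (2100000 / 10 ^ 5) +
        13000000 / (10 ^ 5 * 10 ^ 7) * (69 * (1 / 10 ^ 6)) := by
      calc |wv x m0| = 1 * |wv x m0| := (one_mul _).symm
        _ ≤ _ := main
        _ ≤ _ := by gcongr
    refine m1.trans ?_
    norm_num
  · intro c
    have h := all2_getD _ 42 Xs OMw r1 o1 r4 c
    rw [decide_eq_true_eq] at h
    have h1 : |((Xs.getD c 0 : ℤ) : ℝ)| * 100000 ≤ 48 * ((OMw.getD c 0 : ℤ) : ℝ) := by
      exact_mod_cast h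
    rw [abs_div, abs_of_pos (by norm_num : (0 : ℝ) < 10 ^ 5)]
    nlinarith
  · intro m
    by_cases hgm : gauge (num m) = true
    · right; exact wv_gauge x h7 h8 h9 m hgm
    left
    have h := List.all_eq_true.1 o3 _ (CT_mem m.1 m.2)
    rw [Bool.or_eq_true] at h
    replace h := of_decide_eq_true (h.resolve_left hgm)
    rw [comb_eq m OMw OMb o1 o2 (10 ^ 10), abs_div,
      abs_of_pos (by norm_num : (0 : ℝ) < 10 ^ 10 * 10 ^ 7)]
    have h1 : |((dotL (colW m.1 m.2) OMw + dotL (colB m.1 m.2) OMb : ℤ) : ℝ)| ≤ 8900000 := by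
      exact_mod_cast h
    gcongr
  · intro m
    by_cases hgm : gauge (num m) = true
    · right; exact wv_gauge x h7 h8 h9 m hgm
    left
    have h := List.all_eq_true.1 r3 _ (CT_mem m.1 m.2)
    rw [Bool.or_eq_true] at h
    replace h := of_decide_eq_true (h.resolve_left hgm)
    have e : (if m = m0 then (1 : ℝ) else 0) =
        ((if 3 * (m.1 : ℕ) + m.2 = num m0 then 1000000000000 else 0 : ℤ) : ℝ) /
          (10 ^ 5 * 10 ^ 7) := by
      by_cases hm : m = m0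
      · rw [if_pos hm, if_pos (by rw [hm]; rfl)]; norm_num
      · have hne : ¬ (3 * (m.1 : ℕ) + m.2 = num m0) := fun h => hm (num_inj h)
        rw [if_neg hm, if_neg hne]; norm_num
    rw [comb_eq m Xs Zs r1 r2 (10 ^ 5), e, ← sub_div, abs_div,
      abs_of_pos (by norm_num : (0 : ℝ) < 10 ^ 5 * 10 ^ 7)]
    have h1 : |((dotL (colW m.1 m.2) Xs + dotL (colB m.1 m.2) Zs : ℤ) : ℝ) -
        ((if 3 * (m.1 : ℕ) + m.2 = num m0 then 1000000000000 else 0 : ℤ) : ℝ)| ≤ 13000000 := by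
      exact_mod_cast h
    gcongr

/-- the contraction estimate -/
theorem core (x : ℕ → E3) (hU : IsUnit 22 x) (h7 : x 7 = 0) (h8 : x 8 = !₂[(1 : ℝ), 0, 0])
    (h9 : x 9 2 = 0) (hr : ∀ k ≤ 22, ‖x k - pt k‖ ≤ 1 / 10 ^ 6)
    (hV : ∀ w ∈ walls, 0 ≤ (w.2.2 : ℝ) * vol x w.1 w.2.1) (k : ℕ) (hk : k ≤ 22) :
    ‖x k - pt k‖ ≤ 6 / 10 ^ 7 := by
  have e : (6 / 10 ^ 7 : ℝ) = 2 * (3 / 10 ^ 7) := by ring
  rw [e]
  have h := fun t : Fin 3 => coord_bound x hU h7 h8 h9 hr hV (⟨k, by omega⟩, t)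
  exact norm_le_comp (by norm_num) (h 0) (h 1) (h 2)

end Pool.Agent.H834R5.LUC
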