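import Pool.Agent.H834R5.LUC.Defs

/-! Task CROSS. -/

set_option autoImplicit false
set_option maxHeartbeats 4000000

namespace Pool.Agent.H834R5.LUC

open Pool.Agent.H282R2 Set

namespace Cross

theorem cr_diff (A B A' B' : E3) : cr A' B' - cr A B = cr (A' - A) B' + cr A (B' - B) := by
  apply ext3 <;> simp <;> ring

theorem dt_diff (R B N R' B' N' : E3) : dt R' B' N' - dt R B N =
    dt (R' - R) B' N' + dt R (B' - B) N' + dt R B (N' - N) := by
  simp only [dt, PiLp.sub_apply]; ring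

theorem tri (a b c d : ℝ) (ha : |a| ≤ b) (hc : |c| ≤ d) : |a + c| ≤ b + d :=
  (abs_add_le a c).trans (add_le_add ha hc)

end Cross

/-- Task CROSS: two segments close to a transversal crossing that are coplanar meet. -/
theorem cross_gen (A B R p' q' A' B' R' : E3) (e : ℝ) (he0 : 0 ≤ e) (he : e ≤ 1 / 10 ^ 5)
    (hA : ‖A‖ ≤ 101 / 100) (hB : ‖B‖ ≤ 101 / 100) (hR : ‖R‖ ≤ 13 / 10)
    (hA' : ‖A' - A‖ ≤ e) (hB' : ‖B' - B‖ ≤ e) (hR' : ‖R' - R‖ ≤ e) (hpq : q' - p' = R')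
    (h1 : 1 / 1000 ≤ dt R B (cr A B)) (h2 : dt R B (cr A B) + 1 / 1000 ≤ ‖cr A B‖ ^ 2)
    (h3 : dt A R (cr A B) ≤ -(1 / 1000)) (h4 : -dt A R (cr A B) + 1 / 1000 ≤ ‖cr A B‖ ^ 2)
    (h0 : dt A' B' R' = 0) :
    ¬ Disjoint (segment ℝ p' (p' + A')) (segment ℝ q' (q' + B')) := by
  have nA' : ‖A'‖ ≤ 102 / 100 := by
    have : A' = A + (A' - A) := by abel
    rw [this]
    refine (norm_add_le _ _).trans ?_
    linarith
  have nB' : ‖B'‖ ≤ 102 / 100 := by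
    have : B' = B + (B' - B) := by abel
    rw [this]
    refine (norm_add_le _ _).trans ?_
    linarith
  have nN : ‖cr A B‖ ≤ 103 / 100 := by
    refine (norm_cr_le A B).trans ?_
    have := mul_le_mul hA hB (norm_nonneg _) (by norm_num)
    linarith
  have nN' : ‖cr A' B'‖ ≤ 105 / 100 := by
    refine (norm_cr_le A' B').trans ?_
    have := mul_le_mul nA' nB' (norm_nonneg _) (by norm_num)
    linarith
  have dN : ‖cr A' B' - cr A B‖ ≤ 203 / 100 * e := by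
    rw [Cross.cr_diff]
    refine (norm_add_le _ _).trans ?_
    have a1 := (norm_cr_le (A' - A) B').trans (mul_le_mul hA' nB' (norm_nonneg _) he0)
    have a2 := (norm_cr_le A (B' - B)).trans (mul_le_mul hA hB' (norm_nonneg _) (by norm_num))
    linarith
  set N := cr A B with hN
  set N' := cr A' B' with hN'
  have d1 : |dt R' B' N' - dt R B N| ≤ 6 * e := by
    rw [Cross.dt_diff]
    have a1 : |dt (R' - R) B' N'| ≤ 2 * e := by
      refine (abs_dt_le _ _ _).trans ?_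
      calc ‖R' - R‖ * ‖B'‖ * ‖N'‖ ≤ e * (102 / 100) * (105 / 100) := by gcongr
        _ ≤ 2 * e := by nlinarith
    have a2 : |dt R (B' - B) N'| ≤ 137 / 100 * e := by
      refine (abs_dt_le _ _ _).trans ?_
      calc ‖R‖ * ‖B' - B‖ * ‖N'‖ ≤ (13 / 10) * e * (105 / 100) := by gcongr
        _ ≤ 137 / 100 * e := by nlinarith
    have a3 : |dt R B (N' - N)| ≤ 267 / 100 * e + (1 / 1000) * e := by
      refine (abs_dt_le _ _ _).trans ?_
      calc ‖R‖ * ‖B‖ * ‖N' - N‖ ≤ (13 / 10) * (101 / 100) * (203 / 100 * e) := by gcongr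
        _ ≤ 267 / 100 * e + (1 / 1000) * e := by nlinarith
    have a1' : |dt (R' - R) B' N'| ≤ 11 / 10 * e := by
      refine (abs_dt_le _ _ _).trans ?_
      calc ‖R' - R‖ * ‖B'‖ * ‖N'‖ ≤ e * (102 / 100) * (105 / 100) := by gcongr
        _ ≤ 11 / 10 * e := by nlinarith
    have := Cross.tri _ _ _ _ (Cross.tri _ _ _ _ a1' a2) a3
    linarith
  have d2 : |dt A' R' N' - dt A R N| ≤ 6 * e := by
    rw [Cross.dt_diff]
    have nR' : ‖R'‖ ≤ 131 / 100 := by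
      have : R' = R + (R' - R) := by abel
      rw [this]
      refine (norm_add_le _ _).trans ?_
      linarith
    have a1 : |dt (A' - A) R' N'| ≤ 138 / 100 * e := by
      refine (abs_dt_le _ _ _).trans ?_
      calc ‖A' - A‖ * ‖R'‖ * ‖N'‖ ≤ e * (131 / 100) * (105 / 100) := by gcongr
        _ ≤ 138 / 100 * e := by nlinarith
    have a2 : |dt A (R' - R) N'| ≤ 11 / 10 * e := by
      refine (abs_dt_le _ _ _).trans ?_
      calc ‖A‖ * ‖R' - R‖ * ‖N'‖ ≤ (101 / 100) * e * (105 / 100) := by gcongr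
        _ ≤ 11 / 10 * e := by nlinarith
    have a3 : |dt A R (N' - N)| ≤ 267 / 100 * e + (1 / 1000) * e := by
      refine (abs_dt_le _ _ _).trans ?_
      calc ‖A‖ * ‖R‖ * ‖N' - N‖ ≤ (101 / 100) * (13 / 10) * (203 / 100 * e) := by gcongr
        _ ≤ 267 / 100 * e + (1 / 1000) * e := by nlinarith
    have := Cross.tri _ _ _ _ (Cross.tri _ _ _ _ a1 a2) a3
    linarith
  have d3 : |‖N'‖ ^ 2 - ‖N‖ ^ 2| ≤ 5 * e := by
    have e1 : ‖N'‖ ^ 2 - ‖N‖ ^ 2 = (‖N'‖ - ‖N‖) * (‖N'‖ + ‖N‖) := by ring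
    rw [e1, abs_mul]
    have e2 : |‖N'‖ - ‖N‖| ≤ 203 / 100 * e := (abs_norm_sub_norm_le N' N).trans dN
    have e3 : |‖N'‖ + ‖N‖| ≤ 208 / 100 := by
      rw [abs_of_nonneg (by positivity)]; linarith
    calc |‖N'‖ - ‖N‖| * |‖N'‖ + ‖N‖| ≤ (203 / 100 * e) * (208 / 100) := by gcongr
      _ ≤ 5 * e := by nlinarith
  rw [abs_le] at d1 d2 d3
  have b1 : 0 ≤ dt R' B' N' := by linarith [d1.1]
  have b2 : dt R' B' N' ≤ ‖N'‖ ^ 2 := by linarith [d1.2, d3.1]
  have b3 : 0 ≤ -dt A' R' N' := by linarith [d2.2]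
  have b4 : -dt A' R' N' ≤ ‖N'‖ ^ 2 := by linarith [d2.1, d3.1]
  have hpos : 0 < ‖N'‖ ^ 2 := by linarith [d1.1]
  have hc := cramer A' B' R'
  rw [h0, zero_smul, add_zero, ← hN'] at hc
  set σ := dt R' B' N' / ‖N'‖ ^ 2 with hσ
  set τ := -dt A' R' N' / ‖N'‖ ^ 2 with hτ
  have hR'' : R' = σ • A' - τ • B' := by
    have : R' = (‖N'‖ ^ 2)⁻¹ • (‖N'‖ ^ 2 • R') := by
      rw [smul_smul, inv_mul_cancel₀ hpos.ne', one_smul]
    rw [this, hc, smul_add, smul_smul, smul_smul, hσ, hτ, neg_div, neg_smul, sub_neg_eq_add]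
    congr 2
    · rw [div_eq_inv_mul]
    · rw [div_eq_inv_mul]
  have hσ0 : 0 ≤ σ := div_nonneg b1 hpos.le
  have hσ1 : σ ≤ 1 := (div_le_one hpos).2 b2
  have hτ0 : 0 ≤ τ := div_nonneg b3 hpos.le
  have hτ1 : τ ≤ 1 := (div_le_one hpos).2 b4
  intro hdis
  rw [Set.disjoint_left] at hdis
  refine hdis (a := p' + σ • A') ?_ ?_
  · rw [segment_eq_image']
    exact ⟨σ, ⟨hσ0, hσ1⟩, by simp⟩
  · rw [segment_eq_image']
    refine ⟨τ, ⟨hτ0, hτ1⟩, ?_⟩
    have : q' = p' + (σ • A' - τ • B') := by rw [← hR'', ← hpq]; abel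
    simp only [add_sub_cancel_left]
    rw [this]
    abel

end Pool.Agent.H834R5.LUC
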