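import Pool.Agent.H282R2.Vec

/-!
# A locked unit chain with 22 links in space: the data

The 23 points `pt k` (rounded to 15 decimals) are the vertices of an almost unit chain in which the
42 pairs of links listed in `walls` cross at distance less than `10⁻⁸`.
-/

set_option autoImplicit false
set_option maxHeartbeats 4000000

namespace Pool.Agent.H834R5.LUC

open Pool.Agent.H282R2

/-- integer vectors -/
abbrev I3 : Type := ℤ × ℤ × ℤ

/-- the vertices, in units of `10⁻¹⁵` -/
def PL : List I3 := [
  (338020557608127, -222555470881825, -581930868795711),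
  (706489387098426, 232786464887448, 228559379895746),
  (313736848226196, -10838189540991, -658228346092859),
  (356866532141768, -65512486679567, 339343982912786),
  (429096453142919, 619406692412745, -385686055515748),
  (48174998863638, -165479587007896, 103039198637320),
  (980499114742784, 191392941817554, 44611969369652),
  (0, 0, 0),
  (1000000000000000, 0, 0),
  (81548483522522, 395533578701253, 0),
  (701873401704153, -138848728800867, -574136347318006),
  (5351996559753, 29817432419099, 123294407836218),
  (974884169885577, -203431266298200, 48445163132007),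
  (170563506683386, 374599934161999, -89207305209567),
  (526833075981538, -523629793324805, -346608452547900),
  (780935996295882, 282867504576528, 187239666644788),
  (-4259675562393, -336311219612432, 177994970502419),
  (293898849462454, 524385706077994, -234682017058138),
  (884841501112689, -148220020037182, 210726020203949),
  (262398954694242, -47996276802527, -565495905343218),
  (786914737860181, 190710964365998, 251756837829622),
  (-38836007692432, 341776480854436, -291672013030713),
  (831246721868595, 66553899333711, 117239437457897)]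

/-- the walls: pairs of links `i < j` and a sign -/
def walls : List (ℕ × ℕ × ℤ) := [
  (0, 15, -1), (4, 21, 1), (9, 21, -1), (2, 5, -1), (12, 14, 1), (3, 20, 1),
  (4, 13, 1), (13, 16, -1), (0, 18, -1), (4, 7, -1), (2, 13, -1), (6, 21, -1),
  (1, 9, 1), (10, 18, 1), (17, 21, 1), (17, 19, -1), (7, 14, -1), (19, 21, -1),
  (16, 20, -1), (4, 10, -1), (6, 16, 1), (14, 21, 1), (2, 19, 1), (1, 8, 1),
  (0, 10, -1), (12, 20, 1), (8, 17, 1), (0, 6, 1), (10, 13, -1), (7, 12, -1),
  (10, 16, -1), (5, 14, 1), (2, 11, 1), (7, 10, 1), (0, 20, 1), (1, 17, -1),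
  (6, 19, -1), (2, 15, -1), (9, 16, -1), (14, 18, 1), (15, 20, -1), (3, 17, 1)]

/-- the vertex `k` in units of `10⁻¹⁵` -/
def PI (k : ℕ) : I3 := PL.getD k (0, 0, 0)

/-- integer vector to real vector -/
noncomputable def toE (v : I3) : E3 := !₂[(v.1 : ℝ), (v.2.1 : ℝ), (v.2.2 : ℝ)]

/-- the vertex `k` -/
noncomputable def pt (k : ℕ) : E3 := (1 / 10 ^ 15 : ℝ) • toE (PI k)

/-- all links have length one -/
def IsUnit (n : ℕ) (q : ℕ → E3) : Prop := ∀ i, i < n → dist (q i) (q (i + 1)) = 1

/-- links that are not consecutive are disjoint -/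
def Far (n : ℕ) (q : ℕ → E3) : Prop := ∀ i j, i + 1 < j → j < n →
  Disjoint (segment ℝ (q i) (q (i + 1))) (segment ℝ (q j) (q (j + 1)))

/-- consecutive links meet in their common vertex only -/
def Near (n : ℕ) (q : ℕ → E3) : Prop := ∀ i, i + 1 < n →
  segment ℝ (q i) (q (i + 1)) ∩ segment ℝ (q (i + 1)) (q (i + 2)) = {q (i + 1)}

/-- signed volume of the pair of links `i, j` -/
noncomputable def vol (q : ℕ → E3) (i j : ℕ) : ℝ :=
  dt (q (i + 1) - q i) (q (j + 1) - q j) (q j - q i)

/-- a simple unit chain with `n` links that stays trapped: in all motions the vectors from vertex `a`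
to the next three vertices remain linearly independent -/
def Locked (n a : ℕ) : Prop := ∃ q0 : ℕ → E3, IsUnit n q0 ∧ Far n q0 ∧ Near n q0 ∧
  ∀ γ : ℝ → ℕ → E3, (∀ k ≤ n, ContinuousOn (fun t => γ t k) (Set.Icc 0 1)) →
    (∀ k ≤ n, γ 0 k = q0 k) →
    (∀ t ∈ Set.Icc (0 : ℝ) 1, IsUnit n (γ t)) → (∀ t ∈ Set.Icc (0 : ℝ) 1, Far n (γ t)) →
    ∀ t ∈ Set.Icc (0 : ℝ) 1,
      dt (γ t (a + 1) - γ t a) (γ t (a + 2) - γ t a) (γ t (a + 3) - γ t a) ≠ 0

end Pool.Agent.H834R5.LUC
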