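import Pool.Agent.H834R5.LUC.Defs

/-! Task FIN1: the frozen statement S05104. -/

set_option autoImplicit false
set_option maxHeartbeats 4000000

namespace Pool.Agent.H834R5.LUC

open Pool.Agent.H282R2 Set

theorem fin1 (n a : ℕ) (han : a + 3 ≤ n) (h : Locked n a) :
    ¬ (∀ n : ℕ, ∀ p : ℕ → EuclideanSpace ℝ (Fin 3),
      ((∀ i, i < n → dist (p i) (p (i + 1)) = 1) ∧
       (∀ i j, i + 1 < j → j < n →
          Disjoint (segment ℝ (p i) (p (i + 1))) (segment ℝ (p j) (p (j + 1)))) ∧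
       (∀ i, i + 1 < n →
          segment ℝ (p i) (p (i + 1)) ∩ segment ℝ (p (i + 1)) (p (i + 2)) = {p (i + 1)})) →
      ∃ γ : ℝ → ℕ → EuclideanSpace ℝ (Fin 3),
        Continuous γ ∧
        (∀ i, i ≤ n → γ 0 i = p i) ∧
        (∀ t ∈ Set.Icc (0 : ℝ) 1,
          (∀ i, i < n → dist (γ t i) (γ t (i + 1)) = 1) ∧
          (∀ i j, i + 1 < j → j < n →
            Disjoint (segment ℝ (γ t i) (γ t (i + 1))) (segment ℝ (γ t j) (γ t (j + 1)))) ∧
          (∀ i, i + 1 < n →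
            segment ℝ (γ t i) (γ t (i + 1)) ∩ segment ℝ (γ t (i + 1)) (γ t (i + 2))
              = {γ t (i + 1)})) ∧
        ∃ v : EuclideanSpace ℝ (Fin 3), ‖v‖ = 1 ∧
          ∀ i, i ≤ n → γ 1 i = γ 1 0 + (i : ℝ) • v) := by
  intro H
  obtain ⟨q0, hU, hF, hN, hL⟩ := h
  obtain ⟨γ, hγc, hγ0, hγt, v, hv, hγ1⟩ := H n q0 ⟨hU, hF, hN⟩
  have h1 : (1 : ℝ) ∈ Set.Icc (0 : ℝ) 1 := ⟨zero_le_one, le_rfl⟩
  have key := hL γ (fun k _ => ((continuous_apply k).comp hγc).continuousOn) hγ0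
    (fun t ht => (hγt t ht).1) (fun t ht => (hγt t ht).2.1) 1 h1
  apply key
  have e1 : γ 1 (a + 1) - γ 1 a = v := by
    rw [hγ1 (a + 1) (by omega), hγ1 a (by omega)]
    push_cast
    module
  have e2 : γ 1 (a + 2) - γ 1 a = (2 : ℝ) • v := by
    rw [hγ1 (a + 2) (by omega), hγ1 a (by omega)]
    push_cast
    module
  have e3 : γ 1 (a + 3) - γ 1 a = (3 : ℝ) • v := by
    rw [hγ1 (a + 3) (by omega), hγ1 a (by omega)]
    push_cast
    module
  rw [e1, e2, e3]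
  simp [dt]
  try ring

end Pool.Agent.H834R5.LUC
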