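import Pool.Agent.H834R5.LUC.Defs

/-! Task FIN2: unit trees in space (frozen statement S07546) from a locked unit chain. -/

set_option autoImplicit false
set_option maxHeartbeats 4000000

namespace Pool.Agent.H834R5.LUC

open Pool.Agent.H282R2 Set

theorem fin2_edge_card (n : ℕ) : Nat.card (SimpleGraph.pathGraph (n + 1)).edgeSet = n := by
  have hinj : Function.Injective (fun i : Fin n => s(i.castSucc, i.succ)) := by
    intro i j h
    simp only [Sym2.eq_iff] at h
    rcases h with h | h
    · exact Fin.castSucc_injective n h.1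
    · exfalso
      have h1 := congrArg Fin.val h.1
      have h2 := congrArg Fin.val h.2
      simp at h1 h2
      omega
  have hr : (SimpleGraph.pathGraph (n + 1)).edgeSet
      = Set.range (fun i : Fin n => s(i.castSucc, i.succ)) := by
    ext e
    induction e with
    | _ u v =>
      rw [SimpleGraph.mem_edgeSet, SimpleGraph.pathGraph_adj]
      constructor
      · rintro (h | h)
        · refine ⟨⟨u.val, by omega⟩, ?_⟩
          simp only [Sym2.eq_iff]
          left
          exact ⟨Fin.ext rfl, Fin.ext (by simpa using h)⟩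
        · refine ⟨⟨v.val, by omega⟩, ?_⟩
          simp only [Sym2.eq_iff]
          right
          exact ⟨Fin.ext rfl, Fin.ext (by simpa using h)⟩
      · rintro ⟨i, hi⟩
        simp only [Sym2.eq_iff] at hi
        rcases hi with h | h
        · left
          rw [← h.1, ← h.2]
          simp
        · right
          rw [← h.1, ← h.2]
          simp
  rw [hr, Nat.card_range_of_injective hinj, Nat.card_eq_fintype_card, Fintype.card_fin]

theorem fin2_tree (n : ℕ) : (SimpleGraph.pathGraph (n + 1)).IsTree := by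
  rw [SimpleGraph.isTree_iff_connected_and_card]
  refine ⟨SimpleGraph.pathGraph_connected n, ?_⟩
  rw [fin2_edge_card, Nat.card_eq_fintype_card, Fintype.card_fin]

theorem fin2_dt_zero (W : Submodule ℝ E3) (hW : Module.finrank ℝ W ≤ 2) (u v w : E3)
    (hu : u ∈ W) (hv : v ∈ W) (hw : w ∈ W) : dt u v w = 0 := by
  have hne : W ≠ ⊤ := by
    rintro rfl
    rw [finrank_top, finrank_euclideanSpace, Fintype.card_fin] at hW
    omega
  have h1 : Wᗮ ≠ ⊥ := by
    intro h
    exact hne (Submodule.orthogonal_eq_bot_iff.1 h)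
  obtain ⟨z, hz, hz0⟩ := Submodule.exists_mem_ne_zero_of_ne_bot h1
  have a1 : inner ℝ u z = (0 : ℝ) := (Submodule.mem_orthogonal _ _).1 hz u hu
  have a2 : inner ℝ v z = (0 : ℝ) := (Submodule.mem_orthogonal _ _).1 hz v hv
  have a3 : inner ℝ w z = (0 : ℝ) := (Submodule.mem_orthogonal _ _).1 hz w hw
  have key : dt u v w • z = (inner ℝ u z : ℝ) • cr v w + (inner ℝ v z : ℝ) • cr w u
      + (inner ℝ w z : ℝ) • cr u v := by
    rw [inner3, inner3, inner3]
    apply ext3 <;> simp [dt] <;> ring
  rw [a1, a2, a3] at key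
  simp only [zero_smul, add_zero] at key
  rcases smul_eq_zero.1 key with h | h
  · exact h
  · exact absurd h hz0

theorem fin2_simple (n : ℕ) (q : ℕ → E3) (hF : Far n q) (hN : Near n q) (i j : ℕ) (hi : i < n)
    (hj : j < n) (hij : i ≠ j) (x : E3) (h1 : x ∈ segment ℝ (q i) (q (i + 1)))
    (h2 : x ∈ segment ℝ (q j) (q (j + 1))) :
    ∃ w, (w = i ∨ w = i + 1) ∧ (w = j ∨ w = j + 1) ∧ x = q w := by
  have main : ∀ i j : ℕ, i < j → j < n → x ∈ segment ℝ (q i) (q (i + 1)) →
      x ∈ segment ℝ (q j) (q (j + 1)) → ∃ w, (w = i ∨ w = i + 1) ∧ (w = j ∨ w = j + 1) ∧ x = q w := by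
    intro i j hij hj h1 h2
    rcases Nat.lt_or_ge (i + 1) j with h | h
    · exact absurd h2 (Set.disjoint_left.1 (hF i j h hj) h1)
    · have hj1 : j = i + 1 := by omega
      subst hj1
      have h3 : x ∈ ({q (i + 1)} : Set E3) := by
        rw [← hN i hj]
        exact ⟨h1, h2⟩
      exact ⟨i + 1, Or.inr rfl, Or.inl rfl, h3⟩
  rcases lt_or_gt_of_ne hij with h | h
  · exact main i j h hj h1 h2
  · obtain ⟨w, a, b, c⟩ := main j i h hi h2 h1
    exact ⟨w, b, a, c⟩

theorem fin2_inj (n : ℕ) (q : ℕ → E3) (hU : IsUnit n q) (hF : Far n q) (hN : Near n q) (i j : ℕ)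
    (hij : i < j) (hj : j ≤ n) : q i ≠ q j := by
  intro h
  have hd : dist (q i) (q (i + 1)) = 1 := hU i (by omega)
  rcases Nat.lt_or_ge (i + 1) j with h1 | h1
  · obtain ⟨k, rfl⟩ : ∃ k, j = k + 1 := ⟨j - 1, by omega⟩
    have hx1 : q i ∈ segment ℝ (q i) (q (i + 1)) := left_mem_segment ℝ _ _
    have hx2 : q i ∈ segment ℝ (q k) (q (k + 1)) := by
      rw [h]
      exact right_mem_segment ℝ _ _
    rcases Nat.lt_or_ge (i + 1) k with h2 | h2
    · exact Set.disjoint_left.1 (hF i k h2 (by omega)) hx1 hx2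
    · have hk : k = i + 1 := by omega
      subst hk
      have h3 : q i ∈ ({q (i + 1)} : Set E3) := by
        rw [← hN i (by omega)]
        exact ⟨hx1, hx2⟩
      have h4 : q i = q (i + 1) := h3
      rw [← h4, dist_self] at hd
      norm_num at hd
  · have hj1 : j = i + 1 := by omega
    subst hj1
    rw [← h, dist_self] at hd
    norm_num at hd

/-- Task FIN2: the frozen statement S07546 (unit trees; use the path graph on `Fin (n + 1)`). -/
theorem fin2 (n a : ℕ) (han : a + 3 ≤ n) (h : Locked n a) :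
    ¬ (∀ (V : Type) [Fintype V] (G : SimpleGraph V), G.IsTree →
      ∀ p : V → EuclideanSpace ℝ (Fin 3),
        (∀ u v, G.Adj u v → dist (p u) (p v) = 1) →
        Function.Injective p →
        (∀ a b c d, G.Adj a b → G.Adj c d → s(a, b) ≠ s(c, d) →
          ∀ x, x ∈ segment ℝ (p a) (p b) → x ∈ segment ℝ (p c) (p d) →
            ∃ w, (w = a ∨ w = b) ∧ (w = c ∨ w = d) ∧ x = p w) →
        ∃ f : ℝ → V → EuclideanSpace ℝ (Fin 3),
          ContinuousOn f (Set.Icc 0 1) ∧ f 0 = p ∧
          (∀ t ∈ Set.Icc (0:ℝ) 1,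
            (∀ u v, G.Adj u v → dist (f t u) (f t v) = 1) ∧
            Function.Injective (f t) ∧
            (∀ a b c d, G.Adj a b → G.Adj c d → s(a, b) ≠ s(c, d) →
              ∀ x, x ∈ segment ℝ (f t a) (f t b) → x ∈ segment ℝ (f t c) (f t d) →
                ∃ w, (w = a ∨ w = b) ∧ (w = c ∨ w = d) ∧ x = f t w)) ∧
          ∃ A : AffineSubspace ℝ (EuclideanSpace ℝ (Fin 3)),
            Module.finrank ℝ A.direction ≤ 2 ∧ ∀ v, f 1 v ∈ A) := by
  intro H
  obtain ⟨q0, hU, hF, hN, hL⟩ := h
  obtain ⟨f, hc, hf0, hft, A, hA, hfA⟩ := H (Fin (n + 1)) (SimpleGraph.pathGraph (n + 1))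
    (fin2_tree n) (fun v => q0 v.val) (by
      intro u v huv
      rw [SimpleGraph.pathGraph_adj] at huv
      rcases huv with h | h
      · rw [← h]
        exact hU u.val (by omega)
      · rw [← h, dist_comm]
        exact hU v.val (by omega)) (by
      intro u v huv
      by_contra hne
      have hne' : u.val ≠ v.val := fun h => hne (Fin.ext h)
      rcases lt_or_gt_of_ne hne' with h | h
      · exact fin2_inj n q0 hU hF hN u.val v.val h (by omega) huv
      · exact fin2_inj n q0 hU hF hN v.val u.val h (by omega) huv.symm) (by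
      intro a b c d hab hcd hne x hx1 hx2
      have main : ∀ a b c d : Fin (n + 1), a.val + 1 = b.val → c.val + 1 = d.val →
          s(a, b) ≠ s(c, d) → x ∈ segment ℝ (q0 a.val) (q0 b.val) →
          x ∈ segment ℝ (q0 c.val) (q0 d.val) →
          ∃ w : Fin (n + 1), (w = a ∨ w = b) ∧ (w = c ∨ w = d) ∧ x = q0 w.val := by
        intro a b c d hab hcd hne hx1 hx2
        rw [← hab] at hx1
        rw [← hcd] at hx2
        have hac : a.val ≠ c.val := by
          intro h
          apply hne
          have e1 : a = c := Fin.ext h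
          have e2 : b = d := Fin.ext (by omega)
          rw [e1, e2]
        obtain ⟨w, h1, h2, h3⟩ := fin2_simple n q0 hF hN a.val c.val (by omega) (by omega) hac x
          hx1 hx2
        have hw : w < n + 1 := by rcases h1 with h1 | h1 <;> omega
        refine ⟨⟨w, hw⟩, ?_, ?_, h3⟩
        · rcases h1 with h1 | h1
          · left; exact Fin.ext h1
          · right; exact Fin.ext (by simpa using h1.trans hab)
        · rcases h2 with h1 | h1
          · left; exact Fin.ext h1
          · right; exact Fin.ext (by simpa using h1.trans hcd)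
      rw [SimpleGraph.pathGraph_adj] at hab hcd
      rcases hab with hab | hab <;> rcases hcd with hcd | hcd
      · exact main a b c d hab hcd hne hx1 hx2
      · rw [segment_symm] at hx2
        obtain ⟨w, h1, h2, h3⟩ := main a b d c hab hcd (by rwa [Sym2.eq_swap (a := d)]) hx1 hx2
        exact ⟨w, h1, h2.symm, h3⟩
      · rw [segment_symm] at hx1
        obtain ⟨w, h1, h2, h3⟩ := main b a c d hab hcd (by rwa [Sym2.eq_swap (a := b)]) hx1 hx2
        exact ⟨w, h1.symm, h2, h3⟩
      · rw [segment_symm] at hx1 hx2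
        obtain ⟨w, h1, h2, h3⟩ := main b a d c hab hcd
          (by rwa [Sym2.eq_swap (a := d), Sym2.eq_swap (a := b)]) hx1 hx2
        exact ⟨w, h1.symm, h2.symm, h3⟩)
  set g : ℝ → ℕ → E3 := fun t k => f t (Fin.ofNat (n + 1) k) with hg
  have hval : ∀ k, k ≤ n → (Fin.ofNat (n + 1) k).val = k := by
    intro k hk
    simp only [Fin.ofNat]
    exact Nat.mod_eq_of_lt (by omega)
  have hadj : ∀ k, k < n →
      (SimpleGraph.pathGraph (n + 1)).Adj (Fin.ofNat (n + 1) k) (Fin.ofNat (n + 1) (k + 1)) := by
    intro k hk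
    rw [SimpleGraph.pathGraph_adj]
    left
    rw [hval k (by omega), hval (k + 1) (by omega)]
  have hgc : ∀ k ≤ n, ContinuousOn (fun t => g t k) (Icc 0 1) := by
    intro k _
    exact (continuous_apply (Fin.ofNat (n + 1) k)).comp_continuousOn hc
  have hg0 : ∀ k ≤ n, g 0 k = q0 k := by
    intro k hk
    simp only [hg, hf0]
    rw [hval k hk]
  have hgU : ∀ t ∈ Icc (0 : ℝ) 1, IsUnit n (g t) := by
    intro t ht i hi
    exact (hft t ht).1 _ _ (hadj i hi)
  have hgF : ∀ t ∈ Icc (0 : ℝ) 1, Far n (g t) := by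
    intro t ht i j hij hj
    rw [Set.disjoint_left]
    intro x hx1 hx2
    have hne : s(Fin.ofNat (n + 1) i, Fin.ofNat (n + 1) (i + 1))
        ≠ s(Fin.ofNat (n + 1) j, Fin.ofNat (n + 1) (j + 1)) := by
      intro h
      rw [Sym2.eq_iff] at h
      rcases h with h | h
      · have h1 := congrArg Fin.val h.1
        rw [hval i (by omega), hval j (by omega)] at h1
        omega
      · have h1 := congrArg Fin.val h.1
        rw [hval i (by omega), hval (j + 1) (by omega)] at h1
        omega
    obtain ⟨w, h1, h2, -⟩ := (hft t ht).2.2 _ _ _ _ (hadj i (by omega)) (hadj j hj) hne x hx1 hx2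
    have e1 : w.val = i ∨ w.val = i + 1 := by
      rcases h1 with h1 | h1
      · left; rw [h1, hval i (by omega)]
      · right; rw [h1, hval (i + 1) (by omega)]
    have e2 : w.val = j ∨ w.val = j + 1 := by
      rcases h2 with h1 | h1
      · left; rw [h1, hval j (by omega)]
      · right; rw [h1, hval (j + 1) (by omega)]
    omega
  have hfin := hL g hgc hg0 hgU hgF 1 ⟨by norm_num, le_refl _⟩
  apply hfin
  apply fin2_dt_zero A.direction hA
  · exact AffineSubspace.vsub_mem_direction (hfA _) (hfA _)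
  · exact AffineSubspace.vsub_mem_direction (hfA _) (hfA _)
  · exact AffineSubspace.vsub_mem_direction (hfA _) (hfA _)

end Pool.Agent.H834R5.LUC
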