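import Pool.Agent.H834R5.LUC.Defs

/-! Task INIT. -/

set_option autoImplicit false
set_option maxHeartbeats 4000000

namespace Pool.Agent.H834R5.LUC

open Pool.Agent.H282R2 Set

namespace Init

theorem disjoint_of_dt {a b c d : E3} (h : dt (b - a) (d - c) (c - a) ≠ 0) :
    Disjoint (segment ℝ a b) (segment ℝ c d) := by
  rw [Set.disjoint_left]
  intro x hx hy
  rw [segment_eq_image'] at hx hy
  obtain ⟨s, _, hs⟩ := hx
  obtain ⟨t, _, ht⟩ := hy
  apply h
  simp only at hs ht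
  have e : c - a = s • (b - a) + (-t) • (d - c) := by
    have : c - a = (a + s • (b - a)) - (c + t • (d - c)) + (c - a) := by rw [hs, ht]; simp
    rw [this]; module
  rw [e, dt_add_3, dt_smul_3, dt_smul_3, dt_self_13, dt_self_23]; ring

theorem inter_of_cr {a b c : E3} (h : cr (b - a) (c - b) ≠ 0) :
    segment ℝ a b ∩ segment ℝ b c = {b} := by
  apply Set.eq_singleton_iff_unique_mem.2
  refine ⟨⟨right_mem_segment ℝ a b, left_mem_segment ℝ b c⟩, ?_⟩
  rintro x ⟨hx, hy⟩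
  rw [segment_eq_image'] at hx hy
  obtain ⟨s, _, hs⟩ := hx
  obtain ⟨t, _, ht⟩ := hy
  simp only at hs ht
  have e : (1 - s) • (b - a) = (-t) • (c - b) := by
    have : (1 - s) • (b - a) = b - (a + s • (b - a)) := by module
    rw [this, hs, ← ht]; module
  have e1 : cr ((1 - s) • (b - a)) (c - b) = 0 := by
    rw [e, cr_smul_1, cr_self, smul_zero]
  rw [cr_smul_1, smul_eq_zero] at e1
  have e2 : 1 - s = 0 := e1.resolve_right h
  rw [← hs]
  have : s = 1 := by linarith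
  rw [this]; module

theorem dt_diff (R B N R' B' N' : E3) : dt R' B' N' - dt R B N =
    dt (R' - R) B' N' + dt R (B' - B) N' + dt R B (N' - N) := by
  simp only [dt, PiLp.sub_apply]; ring

end Init

/-- Task INIT: normalising the links of the data. The numerical hypotheses are checked elsewhere. -/
theorem init_gen (n a : ℕ) (han : a + 3 ≤ n) (hn : n ≤ 30) (p : ℕ → E3) (walls : List (ℕ × ℕ × ℤ))
    (ha : p a = 0) (ha1 : p (a + 1) = !₂[(1 : ℝ), 0, 0]) (ha2 : p (a + 2) 2 = 0)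
    (ha3 : 1 / 100 ≤ p (a + 2) 1)
    (hp : ∀ i ≤ n, ∀ j ≤ n, ‖p i - p j‖ ≤ 13 / 10)
    (hlen : ∀ i, i < n → |‖p (i + 1) - p i‖ ^ 2 - 1| ≤ 1 / 10 ^ 14)
    (hW : ∀ w ∈ walls, w.1 + 1 < w.2.1 ∧ w.2.1 < n ∧ (w.2.2 = 1 ∨ w.2.2 = -1))
    (hV : ∀ w ∈ walls, 1 / 10 ^ 11 ≤ (w.2.2 : ℝ) * vol p w.1 w.2.1)
    (hall : ∀ i j, i + 1 < j → j < n → 1 / 10 ^ 11 ≤ |vol p i j|)
    (hadj : ∀ i, i + 1 < n → 1 / 100 ≤ ‖cr (p (i + 1) - p i) (p (i + 2) - p (i + 1))‖) :
    ∃ q0 : ℕ → E3, IsUnit n q0 ∧ q0 a = 0 ∧ q0 (a + 1) = !₂[(1 : ℝ), 0, 0] ∧ q0 (a + 2) 2 = 0 ∧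
      0 < q0 (a + 2) 1 ∧ (∀ k ≤ n, ‖q0 k - p k‖ ≤ 1 / 10 ^ 12) ∧
      (∀ w ∈ walls, 0 < (w.2.2 : ℝ) * vol q0 w.1 w.2.1) ∧ Far n q0 ∧ Near n q0 := by
  let D : ℕ → E3 := fun i => p (i + 1) - p i
  let u : ℕ → E3 := fun i => ‖D i‖⁻¹ • D i
  have hD1 : ∀ i, i < n → |‖D i‖ - 1| ≤ 1 / 10 ^ 14 := by
    intro i hi
    have h := hlen i hi
    have e1 : ‖D i‖ ^ 2 - 1 = (‖D i‖ - 1) * (‖D i‖ + 1) := by ring
    change |‖D i‖ ^ 2 - 1| ≤ _ at h
    rw [e1, abs_mul] at h
    have e2 : 1 ≤ |‖D i‖ + 1| := by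
      rw [abs_of_nonneg (by positivity)]
      linarith [norm_nonneg (D i)]
    calc |‖D i‖ - 1| = |‖D i‖ - 1| * 1 := by ring
      _ ≤ |‖D i‖ - 1| * |‖D i‖ + 1| := by gcongr
      _ ≤ _ := h
  have hDpos : ∀ i, i < n → 1 / 2 ≤ ‖D i‖ ∧ ‖D i‖ ≤ 101 / 100 := by
    intro i hi
    have h := abs_le.1 (hD1 i hi)
    constructor <;> linarith [h.1, h.2]
  have hu1 : ∀ i, i < n → ‖u i‖ = 1 := by
    intro i hi
    have h := (hDpos i hi).1
    have hne : ‖D i‖ ≠ 0 := by linarith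
    simp only [u]
    rw [norm_smul, norm_inv, norm_norm, inv_mul_cancel₀ hne]
  have huD : ∀ i, i < n → ‖u i - D i‖ ≤ 1 / 10 ^ 14 := by
    intro i hi
    have h := (hDpos i hi).1
    have hne : ‖D i‖ ≠ 0 := by linarith
    have e1 : u i - D i = (‖D i‖⁻¹ - 1) • D i := by
      simp only [u]; rw [sub_smul, one_smul]
    rw [e1, norm_smul, Real.norm_eq_abs, ← abs_of_nonneg (norm_nonneg (D i)), ← abs_mul,
      abs_of_nonneg (norm_nonneg (D i)), sub_mul, inv_mul_cancel₀ hne, one_mul, abs_sub_comm]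
    exact hD1 i hi
  let q0 : ℕ → E3 := fun k => ∑ i ∈ Finset.range k, u i - ∑ i ∈ Finset.range a, u i
  have hq1 : ∀ k, q0 (k + 1) - q0 k = u k := by
    intro k
    simp only [q0, Finset.sum_range_succ]
    abel
  have hqa : q0 a = 0 := by simp [q0]
  have hpk : ∀ k, p k = p 0 + ∑ i ∈ Finset.range k, D i := by
    intro k
    induction k with
    | zero => simp
    | succ k ih =>
      rw [Finset.sum_range_succ, ← add_assoc, ← ih]
      simp [D]
  have hpk' : ∀ k, p k = ∑ i ∈ Finset.range k, D i - ∑ i ∈ Finset.range a, D i := by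
    intro k
    have e1 := hpk a
    rw [ha] at e1
    rw [hpk k]
    have : p 0 = - ∑ i ∈ Finset.range a, D i := eq_neg_of_add_eq_zero_left e1.symm
    rw [this]; abel
  have hclose : ∀ k ≤ n, ‖q0 k - p k‖ ≤ 6 / 10 ^ 13 := by
    intro k hk
    have e1 : q0 k - p k = ∑ i ∈ Finset.range k, (u i - D i) - ∑ i ∈ Finset.range a, (u i - D i) := by
      have hs1 : ∀ m : ℕ, ∑ i ∈ Finset.range m, (u i - D i) =
          ∑ i ∈ Finset.range m, u i - ∑ i ∈ Finset.range m, D i := fun m =>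
        Finset.sum_sub_distrib _ _
      rw [hs1, hs1, hpk' k]
      change ∑ i ∈ Finset.range k, u i - ∑ i ∈ Finset.range a, u i - _ = _
      generalize ∑ i ∈ Finset.range k, u i = s1
      generalize ∑ i ∈ Finset.range a, u i = s2
      generalize ∑ i ∈ Finset.range k, D i = s3
      generalize ∑ i ∈ Finset.range a, D i = s4
      abel
    have hs : ∀ m, m ≤ n → ‖∑ i ∈ Finset.range m, (u i - D i)‖ ≤ m * (1 / 10 ^ 14) := by
      intro m hm
      refine (norm_sum_le _ _).trans ?_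
      have := Finset.sum_le_card_nsmul (Finset.range m) (fun i => ‖u i - D i‖) (1 / 10 ^ 14)
        (fun i hi => huD i (by rw [Finset.mem_range] at hi; omega))
      rw [Finset.card_range, nsmul_eq_mul] at this
      exact this
    rw [e1]
    refine (norm_sub_le _ _).trans ?_
    have s1 := hs k hk
    have s2 := hs a (by omega)
    have k30 : (k : ℝ) ≤ 30 := by exact_mod_cast hk.trans hn
    have a30 : (a : ℝ) ≤ 30 := by exact_mod_cast (by omega : a ≤ 30)
    nlinarith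
  have hvol : ∀ i j, i < n → j < n → |vol q0 i j - vol p i j| ≤ 3 / 10 ^ 12 := by
    intro i j hi hj
    unfold vol
    rw [hq1, hq1, Init.dt_diff]
    have n1 := hu1 j hj
    have n2 : ‖D i‖ ≤ 101 / 100 := (hDpos i hi).2
    have n2' : ‖D j‖ ≤ 101 / 100 := (hDpos j hj).2
    have c1 := hclose i hi.le
    have c2 := hclose j hj.le
    have n3 : ‖p j - p i‖ ≤ 13 / 10 := hp j hj.le i hi.le
    have n5 : ‖(q0 j - q0 i) - (p j - p i)‖ ≤ 12 / 10 ^ 13 := by
      have : (q0 j - q0 i) - (p j - p i) = (q0 j - p j) - (q0 i - p i) := by abel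
      rw [this]
      refine (norm_sub_le _ _).trans ?_
      linarith
    have n4 : ‖q0 j - q0 i‖ ≤ 131 / 100 := by
      have : q0 j - q0 i = (p j - p i) + ((q0 j - q0 i) - (p j - p i)) := by abel
      rw [this]
      refine (norm_add_le _ _).trans ?_
      linarith
    have a1 : |dt (u i - (p (i + 1) - p i)) (u j) (q0 j - q0 i)| ≤ 2 / 10 ^ 14 := by
      refine (abs_dt_le _ _ _).trans ?_
      have := huD i hi
      calc ‖u i - D i‖ * ‖u j‖ * ‖q0 j - q0 i‖ ≤ (1 / 10 ^ 14) * 1 * (131 / 100) := by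
            rw [n1]; gcongr
        _ ≤ 2 / 10 ^ 14 := by norm_num
    have a2 : |dt (p (i + 1) - p i) (u j - (p (j + 1) - p j)) (q0 j - q0 i)| ≤ 2 / 10 ^ 14 := by
      refine (abs_dt_le _ _ _).trans ?_
      have := huD j hj
      calc ‖D i‖ * ‖u j - D j‖ * ‖q0 j - q0 i‖ ≤ (101 / 100) * (1 / 10 ^ 14) * (131 / 100) := by
            gcongr
        _ ≤ 2 / 10 ^ 14 := by norm_num
    have a3 : |dt (p (i + 1) - p i) (p (j + 1) - p j) (q0 j - q0 i - (p j - p i))| ≤ 2 / 10 ^ 12 := by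
      refine (abs_dt_le _ _ _).trans ?_
      calc ‖D i‖ * ‖D j‖ * ‖q0 j - q0 i - (p j - p i)‖ ≤ (101 / 100) * (101 / 100) * (12 / 10 ^ 13) := by
            gcongr
        _ ≤ 2 / 10 ^ 12 := by norm_num
    have := abs_add_le (dt (u i - (p (i + 1) - p i)) (u j) (q0 j - q0 i) +
      dt (p (i + 1) - p i) (u j - (p (j + 1) - p j)) (q0 j - q0 i))
      (dt (p (i + 1) - p i) (p (j + 1) - p j) (q0 j - q0 i - (p j - p i)))
    have h2 := abs_add_le (dt (u i - (p (i + 1) - p i)) (u j) (q0 j - q0 i))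
      (dt (p (i + 1) - p i) (u j - (p (j + 1) - p j)) (q0 j - q0 i))
    linarith
  have hDa : D a = !₂[(1 : ℝ), 0, 0] := by
    simp only [D]; rw [ha, ha1, sub_zero]
  have hDa1 : ‖D a‖ = 1 := by
    have h := norm_sq3 (D a)
    rw [hDa] at h
    simp at h
    rw [hDa]
    have h0 := norm_nonneg (!₂[(1 : ℝ), 0, 0] : E3)
    rcases h with h | h
    · exact h
    · linarith
  have hua : u a = !₂[(1 : ℝ), 0, 0] := by
    simp only [u]; rw [hDa1, inv_one, one_smul, hDa]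
  have hqa1 : q0 (a + 1) = !₂[(1 : ℝ), 0, 0] := by
    have := hq1 a
    rw [hqa, sub_zero, hua] at this
    exact this
  have hqa2 : q0 (a + 2) = u a + u (a + 1) := by
    have := hq1 (a + 1)
    rw [hqa1, ← hua] at this
    rw [← this]; abel
  have hDn := hDpos (a + 1) (by omega)
  refine ⟨q0, ?_, hqa, hqa1, ?_, ?_, ?_, ?_, ?_, ?_⟩
  · intro i hi
    rw [dist_comm, dist_eq_norm, hq1]
    exact hu1 i hi
  · rw [hqa2, hua]
    simp only [u, D, PiLp.add_apply, PiLp.smul_apply, PiLp.sub_apply, smul_eq_mul]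
    have e1 : p (a + 1 + 1) 2 = 0 := ha2
    rw [e1, ha1]
    simp
  · rw [hqa2, hua]
    simp only [u, PiLp.add_apply, PiLp.smul_apply, smul_eq_mul]
    have e1 : D (a + 1) 1 = p (a + 2) 1 := by
      simp only [D, PiLp.sub_apply]
      rw [ha1]
      simp
    rw [e1]
    have h5 : 0 < ‖D (a + 1)‖⁻¹ := inv_pos.2 (by linarith [hDn.1])
    have h6 : (0 : ℝ) < p (a + 2) 1 := by linarith
    have h7 := mul_pos h5 h6
    have h8 : (![(1 : ℝ), 0, 0] : Fin 3 → ℝ) 1 = 0 := rfl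
    rw [h8]; linarith
  · intro k hk
    exact (hclose k hk).trans (by norm_num)
  · intro w hw
    obtain ⟨w1, w2, w3⟩ := hW w hw
    have h5 := hvol w.1 w.2.1 (by omega) w2
    have h6 := hV w hw
    rw [abs_le] at h5
    rcases w3 with h7 | h7
    · rw [h7] at h6 ⊢
      push_cast at h6 ⊢
      linarith [h5.1, h5.2]
    · rw [h7] at h6 ⊢
      push_cast at h6 ⊢
      linarith [h5.1, h5.2]
  · intro i j hij hj
    apply Init.disjoint_of_dt
    intro h0
    have h5 := hvol i j (by omega) hj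
    have h6 := hall i j hij hj
    have h7 : vol q0 i j = 0 := h0
    rw [h7, zero_sub, abs_neg] at h5
    linarith
  · intro i hi
    apply Init.inter_of_cr
    have e2 : q0 (i + 2) - q0 (i + 1) = u (i + 1) := hq1 (i + 1)
    rw [e2, hq1]
    simp only [u]
    rw [cr_smul_1, cr_smul_2]
    have h1 := hDpos i (by omega)
    have h2 := hDpos (i + 1) hi
    have h3 := hadj i hi
    refine smul_ne_zero (inv_ne_zero (by linarith [h1.1])) (smul_ne_zero (inv_ne_zero (by linarith [h2.1])) ?_)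
    intro h4
    have h5 : cr (p (i + 1) - p i) (p (i + 2) - p (i + 1)) = 0 := h4
    rw [h5, norm_zero] at h3
    norm_num at h3

end Pool.Agent.H834R5.LUC
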