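import Pool.Agent.H834R5.LUC.Defs

/-! The continuity argument (Task TRAP). -/

set_option autoImplicit false
set_option maxHeartbeats 4000000

namespace Pool.Agent.H834R5.LUC

open Pool.Agent.H282R2 Set Filter Topology

theorem trap_norm_cr_rot {a0 b0 a b : E3} (h0 : cr a0 b0 ≠ 0) (h : cr a b ≠ 0) (u v : E3) :
    ‖cr (rot a0 b0 a b u) (rot a0 b0 a b v)‖ = ‖cr u v‖ := by
  have h1 := norm_cr_sq (rot a0 b0 a b u) (rot a0 b0 a b v)
  rw [norm_rot h0 h, norm_rot h0 h, inner_rot h0 h, ← norm_cr_sq] at h1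
  exact (sq_eq_sq₀ (norm_nonneg _) (norm_nonneg _)).1 h1

theorem trap_rot_first {a0 b0 a b : E3} (h : cr a b ≠ 0) :
    rot a0 b0 a b a = (‖a‖ * ‖a0‖⁻¹) • a0 := by
  have ha : ‖a‖ ≠ 0 := norm_ne_zero_iff.2 (ne_zero_of_cr h)
  have h1 : (inner ℝ (fr1 a b) a : ℝ) = ‖a‖ := by
    rw [fr1, inner_smul_left, RCLike.conj_to_real, real_inner_self_eq_norm_sq]
    field_simp
  have h2 : (inner ℝ (fr2 a b) a : ℝ) = 0 := by
    have : a = ‖a‖ • fr1 a b := by rw [fr1, smul_smul, mul_inv_cancel₀ ha, one_smul]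
    rw [this, inner_smul_right]
    have h21 : (inner ℝ (fr2 (‖a‖ • fr1 a b) b) (fr1 a b) : ℝ) = 0 := by
      rw [← this, real_inner_comm]; exact inner_cr_right _ _
    rw [h21, mul_zero]
  have h3 : (inner ℝ (fr3 a b) a : ℝ) = 0 := by
    rw [fr3, inner_smul_left, real_inner_comm, inner_cr_left]; simp
  rw [rot, h1, h2, h3, zero_smul, zero_smul, add_zero, add_zero, fr1, smul_smul]

/-- the segments of the rotated configuration meet only if the original ones do -/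
theorem trap_seg {a0 b0 a b : E3} (h0 : cr a0 b0 ≠ 0) (h : cr a b ≠ 0) (c p p' q q' : E3)
    (hd : Disjoint (segment ℝ p p') (segment ℝ q q')) :
    Disjoint (segment ℝ (rot a0 b0 a b (p - c)) (rot a0 b0 a b (p' - c)))
      (segment ℝ (rot a0 b0 a b (q - c)) (rot a0 b0 a b (q' - c))) := by
  rw [Set.disjoint_left]
  intro z hz1 hz2
  rw [segment_eq_image'] at hz1 hz2
  obtain ⟨σ, hσ, e1⟩ := hz1
  obtain ⟨τ, hτ, e2⟩ := hz2
  have key : ∀ (u u' : E3) (s : ℝ), rot a0 b0 a b (u - c) +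
      s • (rot a0 b0 a b (u' - c) - rot a0 b0 a b (u - c)) =
      rot a0 b0 a b ((u + s • (u' - u)) - c) := by
    intro u u' s
    rw [← rot_sub, ← rot_smul, ← rot_add]
    congr 1
    module
  have e3 : rot a0 b0 a b ((p + σ • (p' - p)) - c) = rot a0 b0 a b ((q + τ • (q' - q)) - c) := by
    rw [← key, ← key]
    exact e1.trans e2.symm
  have e4 : p + σ • (p' - p) = q + τ • (q' - q) := by
    have n1 := norm_rot h0 h (((p + σ • (p' - p)) - c) - ((q + τ • (q' - q)) - c))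
    rw [rot_sub, e3, sub_self, norm_zero] at n1
    have n2 := norm_eq_zero.1 n1.symm
    have n3 := sub_eq_zero.1 n2
    exact sub_left_injective n3
  have m1 : p + σ • (p' - p) ∈ segment ℝ p p' := by
    rw [segment_eq_image']; exact ⟨σ, hσ, rfl⟩
  have m2 : p + σ • (p' - p) ∈ segment ℝ q q' := by
    rw [e4, segment_eq_image']; exact ⟨τ, hτ, rfl⟩
  exact Set.disjoint_left.1 hd m1 m2

/-- Task TRAP: abstract continuity argument. `x` ranges over normalised configurations. -/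
theorem trap (n a : ℕ) (han : a + 3 ≤ n) (pt q0 : ℕ → E3) (walls : List (ℕ × ℕ × ℤ)) (r r' c0 : ℝ)
    (hr0 : 0 < r) (hr : r' < r) (hc0 : 0 < c0)
    (hW : ∀ w ∈ walls, w.1 + 1 < w.2.1 ∧ w.2.1 < n ∧ (w.2.2 = 1 ∨ w.2.2 = -1))
    (q0a : q0 a = 0) (q0b : q0 (a + 1) = !₂[(1 : ℝ), 0, 0]) (q0c : q0 (a + 2) 2 = 0)
    (q0d : 0 < q0 (a + 2) 1)
    (q0U : IsUnit n q0) (q0r : ∀ k ≤ n, ‖q0 k - pt k‖ ≤ r')
    (q0V : ∀ w ∈ walls, 0 < (w.2.2 : ℝ) * vol q0 w.1 w.2.1)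
    (core : ∀ x : ℕ → E3, IsUnit n x → x a = 0 → x (a + 1) = !₂[(1 : ℝ), 0, 0] → x (a + 2) 2 = 0 →
      (∀ k ≤ n, ‖x k - pt k‖ ≤ r) → (∀ w ∈ walls, 0 ≤ (w.2.2 : ℝ) * vol x w.1 w.2.1) →
      ∀ k ≤ n, ‖x k - pt k‖ ≤ r')
    (cross : ∀ x : ℕ → E3, (∀ k ≤ n, ‖x k - pt k‖ ≤ r) → ∀ w ∈ walls, vol x w.1 w.2.1 = 0 →
      ¬ Disjoint (segment ℝ (x w.1) (x (w.1 + 1))) (segment ℝ (x w.2.1) (x (w.2.1 + 1))))
    (base : ∀ x : ℕ → E3, (∀ k ≤ n, ‖x k - pt k‖ ≤ r) →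
      c0 ≤ ‖cr (x (a + 1) - x a) (x (a + 2) - x a)‖ ∧
      dt (x (a + 1) - x a) (x (a + 2) - x a) (x (a + 3) - x a) ≠ 0)
    (γ : ℝ → ℕ → E3) (hγ : ∀ k ≤ n, ContinuousOn (fun t => γ t k) (Icc 0 1))
    (hγ0 : ∀ k ≤ n, γ 0 k = q0 k)
    (hγU : ∀ t ∈ Icc (0 : ℝ) 1, IsUnit n (γ t)) (hγF : ∀ t ∈ Icc (0 : ℝ) 1, Far n (γ t)) :
    ∀ t ∈ Icc (0 : ℝ) 1,
      dt (γ t (a + 1) - γ t a) (γ t (a + 2) - γ t a) (γ t (a + 3) - γ t a) ≠ 0 := by
  obtain ⟨b0, hb0⟩ : ∃ b0 : E3, b0 = q0 (a + 2) := ⟨_, rfl⟩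
  obtain ⟨a0, ha0⟩ : ∃ a0 : E3, a0 = !₂[(1 : ℝ), 0, 0] := ⟨_, rfl⟩
  have a00 : a0 0 = 1 := by rw [ha0]; rfl
  have a01 : a0 1 = 0 := by rw [ha0]; rfl
  have a02 : a0 2 = 0 := by rw [ha0]; rfl
  have b02 : b0 2 = 0 := by rw [hb0]; exact q0c
  have b01 : 0 < b0 1 := by rw [hb0]; exact q0d
  have na0 : ‖a0‖ = 1 := by
    have h1 := norm_sq3 a0
    rw [a00, a01, a02] at h1
    have h2 : ‖a0‖ ^ 2 = 1 := by rw [h1]; norm_num
    have h3 := norm_nonneg a0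
    nlinarith
  have h0 : cr a0 b0 ≠ 0 := by
    intro e
    have h1 : cr a0 b0 2 = 0 := by rw [e]; rfl
    rw [cr_two, a00, a01] at h1
    linarith
  -- the motion on the unit interval
  obtain ⟨Q, hQdef⟩ : ∃ Q : unitInterval → ℕ → E3,
    Q = fun (t : unitInterval) (k : ℕ) => γ (t : ℝ) k := ⟨_, rfl⟩
  have hQt : ∀ (t : unitInterval) (k : ℕ), Q t k = γ t k := fun t k => by rw [hQdef]
  have hQ' : ∀ t : unitInterval, Q t = γ t := fun t => funext fun k => hQt t k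
  have hQc : ∀ k ≤ n, Continuous fun t => Q t k := by
    intro k hk
    have h1 := continuousOn_iff_continuous_domRestrict.1 (hγ k hk)
    rw [hQdef]
    exact h1
  have hQU : ∀ t, IsUnit n (Q t) := fun t => by rw [hQ']; exact hγU t t.2
  have hQF : ∀ t, Far n (Q t) := fun t => by rw [hQ']; exact hγF t t.2
  have hQ0 : ∀ k ≤ n, Q 0 k = q0 k := fun k hk => by
    rw [hQt]; exact hγ0 k hk
  obtain ⟨va, hva⟩ : ∃ va : unitInterval → E3, va = fun t => Q t (a + 1) - Q t a := ⟨_, rfl⟩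
  obtain ⟨vb, hvb⟩ : ∃ vb : unitInterval → E3, vb = fun t => Q t (a + 2) - Q t a := ⟨_, rfl⟩
  obtain ⟨x, hx⟩ : ∃ x : unitInterval → ℕ → E3,
    x = fun t k => rot a0 b0 (va t) (vb t) (Q t k - Q t a) := ⟨_, rfl⟩
  have hxt : ∀ t k, x t k = rot a0 b0 (va t) (vb t) (Q t k - Q t a) := fun t k => by rw [hx]
  have hxs : ∀ t i j, x t i - x t j = rot a0 b0 (va t) (vb t) (Q t i - Q t j) := by
    intro t i j
    rw [hxt, hxt, ← rot_sub]
    congr 1
    abel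
  have cva : Continuous va := by
    rw [hva]; exact (hQc _ (by omega)).sub (hQc _ (by omega))
  have cvb : Continuous vb := by
    rw [hvb]; exact (hQc _ (by omega)).sub (hQc _ (by omega))
  have hcr : Continuous fun t => cr (va t) (vb t) := Continuous.cr cva cvb
  have nva : ∀ t, ‖va t‖ = 1 := by
    intro t
    have := hQU t a (by omega)
    rw [dist_eq_norm] at this
    rw [hva]
    simp only
    rw [norm_sub_rev]; exact this
  -- facts about the normalised configuration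
  have xa : ∀ t, x t a = 0 := fun t => by rw [hxt, sub_self, rot_zero]
  have xb : ∀ t, cr (va t) (vb t) ≠ 0 → x t (a + 1) = !₂[(1 : ℝ), 0, 0] := by
    intro t ht
    have e : Q t (a + 1) - Q t a = va t := by rw [hva]
    rw [hxt, e, trap_rot_first ht, nva, na0, ← ha0]
    norm_num
  have xc : ∀ t, cr (va t) (vb t) ≠ 0 → x t (a + 2) 2 = 0 := by
    intro t ht
    have e : Q t (a + 2) - Q t a = vb t := by rw [hvb]
    rw [hxt, e]
    have h1 := dt_rot_gauge (a0 := a0) (b0 := b0) h0 ht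
    rw [dt, a00, a01, a02, b02] at h1
    have h2 : b0 1 * (rot a0 b0 (va t) (vb t) (vb t)) 2 = 0 := by linarith
    exact (mul_eq_zero.1 h2).resolve_left b01.ne'
  have xU : ∀ t, cr (va t) (vb t) ≠ 0 → IsUnit n (x t) := by
    intro t ht i hi
    rw [dist_eq_norm, hxs, norm_rot h0 ht, ← dist_eq_norm]
    exact hQU t i hi
  have xV : ∀ t, cr (va t) (vb t) ≠ 0 → ∀ i j, vol (x t) i j = vol (Q t) i j := by
    intro t ht i j
    rw [vol, vol, hxs, hxs, hxs, dt_rot h0 ht]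
  -- a normalised configuration that is close and has the right signs is very close
  have key1 : ∀ t, cr (va t) (vb t) ≠ 0 → (∀ k ≤ n, ‖x t k - pt k‖ ≤ r) →
      (∀ w ∈ walls, 0 ≤ (w.2.2 : ℝ) * vol (Q t) w.1 w.2.1) → ∀ k ≤ n, ‖x t k - pt k‖ ≤ r' := by
    intro t ht hz hd
    refine core (x t) (xU t ht) (xa t) (xb t ht) (xc t ht) hz fun w hw => ?_
    rw [xV t ht]
    exact hd w hw
  have key2 : ∀ t, cr (va t) (vb t) ≠ 0 → (∀ k ≤ n, ‖x t k - pt k‖ ≤ r) →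
      c0 ≤ ‖cr (va t) (vb t)‖ := by
    intro t ht hz
    have h1 := (base (x t) hz).1
    rw [hxs, hxs, trap_norm_cr_rot h0 ht] at h1
    rw [hva, hvb]
    exact h1
  have key3 : ∀ t, cr (va t) (vb t) ≠ 0 → (∀ k ≤ n, ‖x t k - pt k‖ ≤ r) →
      ∀ w ∈ walls, (w.2.2 : ℝ) * vol (Q t) w.1 w.2.1 ≠ 0 := by
    intro t ht hz w hw hk
    obtain ⟨w1, w2, w3⟩ := hW w hw
    have hs : (w.2.2 : ℝ) ≠ 0 := by rcases w3 with h | h <;> rw [h] <;> norm_num
    have hv := (mul_eq_zero.1 hk).resolve_left hs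
    rw [← xV t ht] at hv
    refine cross (x t) hz w hw hv ?_
    rw [hxt, hxt, hxt, hxt]
    exact trap_seg h0 ht _ _ _ _ _ (hQF t w.1 w.2.1 w1 w2)
  -- continuity
  have hxc : ∀ t, cr (va t) (vb t) ≠ 0 → ∀ k ≤ n, ContinuousAt (fun t => x t k) t := by
    intro t ht k hk
    have hu : Continuous fun t => Q t k - Q t a := (hQc k hk).sub (hQc a (by omega))
    have c1 := continuousAt_comp_rot a0 b0 cva.continuousAt cvb.continuousAt hu.continuousAt ht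
    rw [hx]
    exact c1
  have hdk : ∀ w ∈ walls, Continuous fun t => (w.2.2 : ℝ) * vol (Q t) w.1 w.2.1 := by
    intro w hw
    obtain ⟨w1, w2, w3⟩ := hW w hw
    unfold vol
    exact continuous_const.mul (Continuous.dt ((hQc _ (by omega)).sub (hQc _ (by omega)))
      ((hQc _ (by omega)).sub (hQc _ (by omega))) ((hQc _ (by omega)).sub (hQc _ (by omega))))
  obtain ⟨S, hS⟩ : ∃ S : Set unitInterval, S = {t | c0 ≤ ‖cr (va t) (vb t)‖ ∧
    (∀ k ≤ n, ‖x t k - pt k‖ ≤ r') ∧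
    ∀ w ∈ walls, 0 < (w.2.2 : ℝ) * vol (Q t) w.1 w.2.1} := ⟨_, rfl⟩
  have hne : ∀ t, c0 ≤ ‖cr (va t) (vb t)‖ → cr (va t) (vb t) ≠ 0 :=
    fun t ht => norm_pos_iff.1 (hc0.trans_le ht)
  have hclosed : IsClosed S := by
    have hF : IsClosed {t | c0 ≤ ‖cr (va t) (vb t)‖} := isClosed_le continuous_const hcr.norm
    have hG : ∀ k ≤ n, IsClosed ({t | c0 ≤ ‖cr (va t) (vb t)‖} ∩
        (fun t => ‖x t k - pt k‖) ⁻¹' Set.Iic r') := by
      intro k hk
      refine ContinuousOn.preimage_isClosed_of_isClosed ?_ hF isClosed_Iic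
      intro t ht
      exact ((hxc t (hne t ht) k hk).sub (continuousAt_const (y := pt k))).norm.continuousWithinAt
    have hG' : IsClosed (⋂ k : Fin (n + 1), ({t | c0 ≤ ‖cr (va t) (vb t)‖} ∩
        (fun t => ‖x t k - pt k‖) ⁻¹' Set.Iic r')) :=
      isClosed_iInter fun k => hG k (by omega)
    have hH : IsClosed {t | ∀ w : {w // w ∈ walls}, 0 ≤ (w.1.2.2 : ℝ) * vol (Q t) w.1.1 w.1.2.1} := by
      rw [Set.ofPred_forall]
      exact isClosed_iInter fun w => isClosed_le continuous_const (hdk w.1 w.2)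
    have : S = (⋂ k : Fin (n + 1), ({t | c0 ≤ ‖cr (va t) (vb t)‖} ∩
        (fun t => ‖x t k - pt k‖) ⁻¹' Set.Iic r')) ∩
        {t | ∀ w : {w // w ∈ walls}, 0 ≤ (w.1.2.2 : ℝ) * vol (Q t) w.1.1 w.1.2.1} := by
      ext t
      rw [hS]
      constructor
      · rintro ⟨a1, a2, a3⟩
        refine ⟨?_, fun w => (a3 w.1 w.2).le⟩
        rw [Set.mem_iInter]
        intro k
        exact ⟨a1, a2 k (by omega)⟩
      · rintro ⟨a2, a3⟩
        rw [Set.mem_iInter] at a2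
        have a1 : c0 ≤ ‖cr (va t) (vb t)‖ := (a2 0).1
        have a2' : ∀ k ≤ n, ‖x t k - pt k‖ ≤ r' := by
          intro k hk
          exact (a2 ⟨k, by omega⟩).2
        refine ⟨a1, a2', fun w hw => lt_of_le_of_ne (a3 ⟨w, hw⟩) (Ne.symm ?_)⟩
        exact key3 t (hne t a1) (fun k hk => (a2' k hk).trans hr.le) w hw
    rw [this]
    exact hG'.inter hH
  have hopen : IsOpen S := by
    rw [isOpen_iff_mem_nhds]
    intro t ht
    rw [hS] at ht
    obtain ⟨a1, a2, a3⟩ := ht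
    have b1 : ∀ᶠ s in 𝓝 t, cr (va s) (vb s) ≠ 0 :=
      hcr.continuousAt.eventually_ne (hne t a1)
    have b2 : ∀ᶠ s in 𝓝 t, ∀ k : Fin (n + 1), ‖x s k - pt k‖ < r := by
      rw [eventually_all]
      intro k
      have hk : (k : ℕ) ≤ n := by omega
      have c1 := ((hxc t (hne t a1) k hk).sub (continuousAt_const (y := pt k))).norm
      exact c1.eventually_lt_const ((a2 k hk).trans_lt hr)
    have b3 : ∀ᶠ s in 𝓝 t, ∀ w ∈ walls.toFinset, 0 < (w.2.2 : ℝ) * vol (Q s) w.1 w.2.1 := by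
      rw [Filter.eventually_all_finset]
      intro w hw
      rw [List.mem_toFinset] at hw
      exact (hdk w hw).continuousAt.eventually_const_lt (a3 w hw)
    filter_upwards [b1, b2, b3] with s c1 c2 c3
    have c2' : ∀ k ≤ n, ‖x s k - pt k‖ ≤ r := fun k hk => (c2 ⟨k, by omega⟩).le
    have c3' : ∀ w ∈ walls, 0 < (w.2.2 : ℝ) * vol (Q s) w.1 w.2.1 :=
      fun w hw => c3 w (List.mem_toFinset.2 hw)
    rw [hS]
    exact ⟨key2 s c1 c2', key1 s c1 c2' (fun w hw => (c3' w hw).le), c3'⟩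
  have h0S : (0 : unitInterval) ∈ S := by
    rw [hS]
    have e1 : va 0 = a0 := by
      rw [hva]
      simp only
      rw [hQ0 _ (by omega), hQ0 _ (by omega), q0a, q0b, sub_zero, ha0]
    have e2 : vb 0 = b0 := by
      rw [hvb]
      simp only
      rw [hQ0 _ (by omega), hQ0 _ (by omega), q0a, sub_zero, hb0]
    have hb : cr (va 0) (vb 0) ≠ 0 := by rw [e1, e2]; exact h0
    have e3 : ∀ k ≤ n, x 0 k = q0 k := by
      intro k hk
      rw [hxt, e1, e2, rot_self h0, hQ0 k hk, hQ0 a (by omega), q0a, sub_zero]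
    have e4 : ∀ k ≤ n, ‖x 0 k - pt k‖ ≤ r' := fun k hk => by rw [e3 k hk]; exact q0r k hk
    refine ⟨key2 0 hb (fun k hk => (e4 k hk).trans hr.le), e4, fun w hw => ?_⟩
    obtain ⟨w1, w2, w3⟩ := hW w hw
    have h5 := q0V w hw
    rw [vol] at h5 ⊢
    rw [hQ0 _ (by omega), hQ0 _ (by omega), hQ0 _ (by omega), hQ0 _ (by omega)]
    exact h5
  have huniv : S = Set.univ := IsClopen.eq_univ ⟨hclosed, hopen⟩ ⟨0, h0S⟩
  intro t ht
  have h1 : (⟨t, ht⟩ : unitInterval) ∈ S := by rw [huniv]; exact Set.mem_univ _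
  rw [hS] at h1
  obtain ⟨d1, d2, _⟩ := h1
  have hn := hne _ d1
  have h2 := (base (x ⟨t, ht⟩) (fun k hk => (d2 k hk).trans hr.le)).2
  rw [hxs, hxs, hxs, dt_rot h0 hn, hQt, hQt, hQt, hQt] at h2
  exact h2

end Pool.Agent.H834R5.LUC
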