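import Pool.Agent.H834R5.LUC.Core3
import Pool.Agent.H834R5.LUC.Cross
import Pool.Agent.H834R5.LUC.Init
import Pool.Agent.H834R5.LUC.Trap

/-! # A locked unit chain with 22 links in space -/

set_option autoImplicit false
set_option maxHeartbeats 4000000
set_option maxRecDepth 10000

namespace Pool.Agent.H834R5.LUC

open Pool.Agent.H282R2 Set

theorem exists_index {w : ℕ × ℕ × ℤ} (hw : w ∈ walls) : ∃ c : Fin 42, wl c = w := by
  obtain ⟨n, hn, hnw⟩ := List.mem_iff_getElem.1 hw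
  have h : n < 42 := by rw [← len_ok.1]; exact hn
  refine ⟨⟨n, h⟩, ?_⟩
  rw [wl, List.getD_eq_getElem _ _ hn, hnw]

theorem walls_ok : ∀ w ∈ walls, w.1 + 1 < w.2.1 ∧ w.2.1 < 22 ∧ (w.2.2 = 1 ∨ w.2.2 = -1) := by
  intro w hw
  obtain ⟨c, rfl⟩ := exists_index hw
  have h := wall_ok c
  simp only [chkWall, Bool.and_eq_true, decide_eq_true_eq, Bool.or_eq_true, beq_iff_eq] at h
  exact ⟨h.1.1.1.1.1.1.1, h.1.1.1.1.1.1.2, h.1.1.1.1.1.2⟩

theorem walls_vol : ∀ w ∈ walls, 1 / 10 ^ 11 ≤ (w.2.2 : ℝ) * vol pt w.1 w.2.1 := by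
  intro w hw
  obtain ⟨c, rfl⟩ := exists_index hw
  have h := wall_ok c
  simp only [chkWall, Bool.and_eq_true, decide_eq_true_eq, Bool.or_eq_true, beq_iff_eq] at h
  have h1 := h.1.2.1.2
  rw [vol, pt_sub, pt_sub, pt_sub, dt_toE]
  have h2 : (10 : ℝ) ^ 34 ≤ ((wl c).2.2 : ℝ) * (det3 (sub3 (PI ((wl c).1 + 1)) (PI (wl c).1))
      (sub3 (PI ((wl c).2.1 + 1)) (PI (wl c).2.1)) (sub3 (PI (wl c).2.1) (PI (wl c).1)) : ℤ) := by
    exact_mod_cast h1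
  nlinarith

theorem all_vol : ∀ i j, i + 1 < j → j < 22 → 1 / 10 ^ 11 ≤ |vol pt i j| := by
  intro i j hij hj
  have h := List.all_eq_true.1 (List.all_eq_true.1 chkAll_ok j (List.mem_range.2 hj)) i
    (List.mem_range.2 (by omega))
  rw [decide_eq_true_eq] at h
  rw [vol, pt_sub, pt_sub, pt_sub, dt_toE, abs_mul,
    abs_of_pos (by positivity : (0 : ℝ) < 1 / 10 ^ 15 * (1 / 10 ^ 15) * (1 / 10 ^ 15))]
  have h2 : (10 : ℝ) ^ 34 ≤ |((det3 (sub3 (PI (i + 1)) (PI i)) (sub3 (PI (j + 1)) (PI j))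
      (sub3 (PI j) (PI i)) : ℤ) : ℝ)| := by
    exact_mod_cast h
  nlinarith

theorem adj_cr : ∀ i, i + 1 < 22 → 1 / 100 ≤ ‖cr (pt (i + 1) - pt i) (pt (i + 2) - pt (i + 1))‖ := by
  intro i hi
  have h := List.all_eq_true.1 chkAdj_ok i (List.mem_range.2 (by omega))
  rw [decide_eq_true_eq] at h
  rw [pt_sub, pt_sub, cr_toE]
  apply le_of_sq_le_sq _ (norm_nonneg _)
  rw [normsq_toE]
  have h2 : (10 : ℝ) ^ 56 ≤ ((dot3 (cr3 (sub3 (PI (i + 1)) (PI i)) (sub3 (PI (i + 2)) (PI (i + 1))))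
      (cr3 (sub3 (PI (i + 1)) (PI i)) (sub3 (PI (i + 2)) (PI (i + 1)))) : ℤ) : ℝ) := by
    exact_mod_cast h
  nlinarith

theorem cross (x : ℕ → E3) (hr : ∀ k ≤ 22, ‖x k - pt k‖ ≤ 1 / 10 ^ 6) : ∀ w ∈ walls,
    vol x w.1 w.2.1 = 0 →
    ¬ Disjoint (segment ℝ (x w.1) (x (w.1 + 1))) (segment ℝ (x w.2.1) (x (w.2.1 + 1))) := by
  intro w hw h0
  have hwo := walls_ok w hw
  obtain ⟨c, rfl⟩ := exists_index hw
  have h := wall_ok c
  rcases hwl : wl c with ⟨i, j, s⟩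
  rw [hwl] at h h0 hwo
  simp only at h0 hwo ⊢
  obtain ⟨hij, hj, _⟩ := hwo
  simp only [chkWall, Bool.and_eq_true, decide_eq_true_eq, Bool.or_eq_true, beq_iff_eq] at h
  obtain ⟨⟨⟨f1, f2⟩, f3⟩, f4⟩ := h.2
  have e1 : x (i + 1) = x i + (x (i + 1) - x i) := by abel
  have e2 : x (j + 1) = x j + (x (j + 1) - x j) := by abel
  have a1 : (x (i + 1) - x i) - (pt (i + 1) - pt i) = (x (i + 1) - pt (i + 1)) - (x i - pt i) := by
    abel
  have a2 : (x (j + 1) - x j) - (pt (j + 1) - pt j) = (x (j + 1) - pt (j + 1)) - (x j - pt j) := by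
    abel
  have a3 : (x j - x i) - (pt j - pt i) = (x j - pt j) - (x i - pt i) := by
    abel
  rw [e1, e2]
  refine cross_gen (pt (i + 1) - pt i) (pt (j + 1) - pt j) (pt j - pt i) _ _ _ _ (x j - x i)
    (2 / 10 ^ 6) (by norm_num) (by norm_num) (norm_link i (by omega)) (norm_link j hj)
    (dist_pt j i (by omega) (by omega)) ?_ ?_ ?_ rfl ?_ ?_ ?_ ?_ h0
  · rw [a1]; exact norm_diff hr _ _ (by omega) (by omega)
  · rw [a2]; exact norm_diff hr _ _ (by omega) (by omega)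
  · rw [a3]; exact norm_diff hr _ _ (by omega) (by omega)
  · rw [pt_sub, pt_sub, pt_sub, cr_toE, dt_toE]
    have g : (10 : ℝ) ^ 57 ≤ (det3 (sub3 (PI j) (PI i)) (sub3 (PI (j + 1)) (PI j))
      (cr3 (sub3 (PI (i + 1)) (PI i)) (sub3 (PI (j + 1)) (PI j))) : ℤ) := by exact_mod_cast f1
    nlinarith
  · rw [pt_sub, pt_sub, pt_sub, cr_toE, dt_toE, normsq_toE]
    have g : ((det3 (sub3 (PI j) (PI i)) (sub3 (PI (j + 1)) (PI j))
      (cr3 (sub3 (PI (i + 1)) (PI i)) (sub3 (PI (j + 1)) (PI j))) : ℤ) : ℝ) + (10 : ℝ) ^ 57 ≤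
      (dot3 (cr3 (sub3 (PI (i + 1)) (PI i)) (sub3 (PI (j + 1)) (PI j)))
        (cr3 (sub3 (PI (i + 1)) (PI i)) (sub3 (PI (j + 1)) (PI j))) : ℤ) := by exact_mod_cast f2
    nlinarith
  · rw [pt_sub, pt_sub, pt_sub, cr_toE, dt_toE]
    have g : ((det3 (sub3 (PI (i + 1)) (PI i)) (sub3 (PI j) (PI i))
      (cr3 (sub3 (PI (i + 1)) (PI i)) (sub3 (PI (j + 1)) (PI j))) : ℤ) : ℝ) ≤ -10 ^ 57 := by
        exact_mod_cast f3
    nlinarith
  · rw [pt_sub, pt_sub, pt_sub, cr_toE, dt_toE, normsq_toE]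
    have g : -((det3 (sub3 (PI (i + 1)) (PI i)) (sub3 (PI j) (PI i))
      (cr3 (sub3 (PI (i + 1)) (PI i)) (sub3 (PI (j + 1)) (PI j))) : ℤ) : ℝ) + (10 : ℝ) ^ 57 ≤
      (dot3 (cr3 (sub3 (PI (i + 1)) (PI i)) (sub3 (PI (j + 1)) (PI j)))
        (cr3 (sub3 (PI (i + 1)) (PI i)) (sub3 (PI (j + 1)) (PI j))) : ℤ) := by exact_mod_cast f4
    nlinarith

theorem base_det : det3 (sub3 (PI 8) (PI 7)) (sub3 (PI 9) (PI 7)) (sub3 (PI 10) (PI 7)) ≤
    -2 * 10 ^ 44 := by decide +kernel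

theorem dt_cyc (u v w : E3) : dt u v w = inner ℝ w (cr u v) := by
  rw [inner3]; simp [dt]; ring

theorem base (x : ℕ → E3) (hr : ∀ k ≤ 22, ‖x k - pt k‖ ≤ 1 / 10 ^ 6) :
    1 / 10 ≤ ‖cr (x (7 + 1) - x 7) (x (7 + 2) - x 7)‖ ∧
      dt (x (7 + 1) - x 7) (x (7 + 2) - x 7) (x (7 + 3) - x 7) ≠ 0 := by
  obtain ⟨A, hA⟩ : ∃ A, A = pt 8 - pt 7 := ⟨_, rfl⟩
  obtain ⟨B, hB⟩ : ∃ B, B = pt 9 - pt 7 := ⟨_, rfl⟩
  obtain ⟨C, hC⟩ : ∃ C, C = pt 10 - pt 7 := ⟨_, rfl⟩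
  obtain ⟨A', hA'⟩ : ∃ A', A' = x (7 + 1) - x 7 := ⟨_, rfl⟩
  obtain ⟨B', hB'⟩ : ∃ B', B' = x (7 + 2) - x 7 := ⟨_, rfl⟩
  obtain ⟨C', hC'⟩ : ∃ C', C' = x (7 + 3) - x 7 := ⟨_, rfl⟩
  have nA : ‖A‖ ≤ 13 / 10 := by rw [hA]; exact dist_pt _ _ (by norm_num) (by norm_num)
  have nB : ‖B‖ ≤ 13 / 10 := by rw [hB]; exact dist_pt _ _ (by norm_num) (by norm_num)
  have nC : ‖C‖ ≤ 13 / 10 := by rw [hC]; exact dist_pt _ _ (by norm_num) (by norm_num)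
  have dA : ‖A' - A‖ ≤ 2 / 10 ^ 6 := by
    have e : A' - A = (x 8 - pt 8) - (x 7 - pt 7) := by rw [hA, hA']; norm_num; abel
    rw [e]; exact norm_diff hr _ _ (by norm_num) (by norm_num)
  have dB : ‖B' - B‖ ≤ 2 / 10 ^ 6 := by
    have e : B' - B = (x 9 - pt 9) - (x 7 - pt 7) := by rw [hB, hB']; norm_num; abel
    rw [e]; exact norm_diff hr _ _ (by norm_num) (by norm_num)
  have dC : ‖C' - C‖ ≤ 2 / 10 ^ 6 := by
    have e : C' - C = (x 10 - pt 10) - (x 7 - pt 7) := by rw [hC, hC']; norm_num; abel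
    rw [e]; exact norm_diff hr _ _ (by norm_num) (by norm_num)
  have nB' : ‖B'‖ ≤ 131 / 100 := by
    have : B' = B + (B' - B) := by abel
    rw [this]; refine (norm_add_le _ _).trans ?_; linarith
  have nC' : ‖C'‖ ≤ 131 / 100 := by
    have : C' = C + (C' - C) := by abel
    rw [this]; refine (norm_add_le _ _).trans ?_; linarith
  have h0 : dt A B C ≤ -(2 / 10) := by
    rw [hA, hB, hC, pt_sub, pt_sub, pt_sub, dt_toE]
    have g : ((det3 (sub3 (PI 8) (PI 7)) (sub3 (PI 9) (PI 7)) (sub3 (PI 10) (PI 7)) : ℤ) : ℝ) ≤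
        -2 * 10 ^ 44 := by exact_mod_cast base_det
    nlinarith
  have hd := Cross.dt_diff A B C A' B' C'
  have b1 : |dt (A' - A) B' C'| ≤ 2 / 10 ^ 6 * (131 / 100) * (131 / 100) :=
    (abs_dt_le _ _ _).trans (by gcongr)
  have b2 : |dt A (B' - B) C'| ≤ 13 / 10 * (2 / 10 ^ 6) * (131 / 100) :=
    (abs_dt_le _ _ _).trans (by gcongr)
  have b3 : |dt A B (C' - C)| ≤ 13 / 10 * (13 / 10) * (2 / 10 ^ 6) :=
    (abs_dt_le _ _ _).trans (by gcongr)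
  rw [abs_le] at b1 b2 b3
  have h1 : dt A' B' C' ≤ -(19 / 100) := by linarith [b1.2, b2.2, b3.2]
  rw [← hA', ← hB', ← hC']
  refine ⟨?_, fun h => by rw [h] at h1; linarith⟩
  have h2 := abs_real_inner_le_norm C' (cr A' B')
  rw [← dt_cyc] at h2
  have h3 : 19 / 100 ≤ |dt A' B' C'| := by
    rw [le_abs]; right; linarith
  have h4 := norm_nonneg (cr A' B')
  nlinarith

/-- There is a simple unit chain with 22 links in space which stays trapped. -/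
theorem locked : Locked 22 7 := by
  have i1 : pt 7 = 0 := pt7
  have i2 : pt (7 + 1) = !₂[(1 : ℝ), 0, 0] := pt8
  have i3 : pt (7 + 2) 2 = 0 := pt9
  have i4 : 1 / 100 ≤ pt (7 + 2) 1 := by
    have h : (PI 9).2.1 = 395533578701253 := by decide +kernel
    have h' : pt 9 1 = (1 / 10 ^ 15) * ((PI 9).2.1 : ℝ) := by
      rw [pt]; simp [toE]
    show 1 / 100 ≤ pt 9 1
    rw [h', h]; norm_num
  obtain ⟨q0, qU, qa, qb, qc, qd, qr, qV, qF, qN⟩ := init_gen 22 7 (by norm_num) (by norm_num) pt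
    walls i1 i2 i3 i4 (fun i hi j hj => dist_pt i j hi hj) (fun i hi => len_pt i hi) walls_ok
    walls_vol all_vol adj_cr
  refine ⟨q0, qU, qF, qN, fun γ hγ hγ0 hγU hγF => ?_⟩
  exact trap 22 7 (by norm_num) pt q0 walls (1 / 10 ^ 6) (6 / 10 ^ 7) (1 / 10) (by norm_num)
    (by norm_num) (by norm_num) walls_ok qa qb qc qd qU
    (fun k hk => (qr k hk).trans (by norm_num)) qV
    (fun x hU h7 h8 h9 hr hV k hk => core x hU h7 h8 h9 hr hV k hk)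
    (fun x hr w hw h => cross x hr w hw h) (fun x hr => base x hr) γ hγ hγ0 hγU hγF

end Pool.Agent.H834R5.LUC
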