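import Pool.Agent.H834R5.LUC.Defs

/-! Statements of the parts (stubs). -/

set_option autoImplicit false
set_option maxHeartbeats 4000000

namespace Pool.Agent.H834R5.LUC.Stubs

open Pool.Agent.H282R2 Pool.Agent.H834R5.LUC Set

/-- Task TRAP: abstract continuity argument. `x` ranges over normalised configurations. -/
theorem trap (n a : ℕ) (han : a + 3 ≤ n) (pt q0 : ℕ → E3) (walls : List (ℕ × ℕ × ℤ)) (r r' c0 : ℝ)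
    (hr0 : 0 < r) (hr : r' < r) (hc0 : 0 < c0)
    (hW : ∀ w ∈ walls, w.1 + 1 < w.2.1 ∧ w.2.1 < n ∧ (w.2.2 = 1 ∨ w.2.2 = -1))
    (q0a : q0 a = 0) (q0b : q0 (a + 1) = !₂[(1 : ℝ), 0, 0]) (q0c : q0 (a + 2) 2 = 0)
    (q0d : 0 < q0 (a + 2) 1)
    (q0U : IsUnit n q0) (q0r : ∀ k ≤ n, ‖q0 k - pt k‖ ≤ r')
    (q0V : ∀ w ∈ walls, 0 < (w.2.2 : ℝ) * vol q0 w.1 w.2.1)
    (core : ∀ x : ℕ → E3, IsUnit n x → x a = 0 → x (a + 1) = !₂[(1 : ℝ), 0, 0] → x (a + 2) 2 = 0 →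
      (∀ k ≤ n, ‖x k - pt k‖ ≤ r) → (∀ w ∈ walls, 0 ≤ (w.2.2 : ℝ) * vol x w.1 w.2.1) →
      ∀ k ≤ n, ‖x k - pt k‖ ≤ r')
    (cross : ∀ x : ℕ → E3, (∀ k ≤ n, ‖x k - pt k‖ ≤ r) → ∀ w ∈ walls, vol x w.1 w.2.1 = 0 →
      ¬ Disjoint (segment ℝ (x w.1) (x (w.1 + 1))) (segment ℝ (x w.2.1) (x (w.2.1 + 1))))
    (base : ∀ x : ℕ → E3, (∀ k ≤ n, ‖x k - pt k‖ ≤ r) →
      c0 ≤ ‖cr (x (a + 1) - x a) (x (a + 2) - x a)‖ ∧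
      dt (x (a + 1) - x a) (x (a + 2) - x a) (x (a + 3) - x a) ≠ 0)
    (γ : ℝ → ℕ → E3) (hγ : ∀ k ≤ n, ContinuousOn (fun t => γ t k) (Icc 0 1))
    (hγ0 : ∀ k ≤ n, γ 0 k = q0 k)
    (hγU : ∀ t ∈ Icc (0 : ℝ) 1, IsUnit n (γ t)) (hγF : ∀ t ∈ Icc (0 : ℝ) 1, Far n (γ t)) :
    ∀ t ∈ Icc (0 : ℝ) 1,
      dt (γ t (a + 1) - γ t a) (γ t (a + 2) - γ t a) (γ t (a + 3) - γ t a) ≠ 0 := by
  sorry

/-- Task CROSS: two segments close to a transversal crossing that are coplanar meet. -/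
theorem cross_gen (A B R p' q' A' B' R' : E3) (e : ℝ) (he0 : 0 ≤ e) (he : e ≤ 1 / 10 ^ 5)
    (hA : ‖A‖ ≤ 101 / 100) (hB : ‖B‖ ≤ 101 / 100) (hR : ‖R‖ ≤ 13 / 10)
    (hA' : ‖A' - A‖ ≤ e) (hB' : ‖B' - B‖ ≤ e) (hR' : ‖R' - R‖ ≤ e) (hpq : q' - p' = R')
    (h1 : 1 / 1000 ≤ dt R B (cr A B)) (h2 : dt R B (cr A B) + 1 / 1000 ≤ ‖cr A B‖ ^ 2)
    (h3 : dt A R (cr A B) ≤ -(1 / 1000)) (h4 : -dt A R (cr A B) + 1 / 1000 ≤ ‖cr A B‖ ^ 2)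
    (h0 : dt A' B' R' = 0) :
    ¬ Disjoint (segment ℝ p' (p' + A')) (segment ℝ q' (q' + B')) := by
  sorry

/-- Task INIT: normalising the links of the data. The numerical hypotheses are checked elsewhere. -/
theorem init_gen (n a : ℕ) (han : a + 3 ≤ n) (hn : n ≤ 30) (p : ℕ → E3) (walls : List (ℕ × ℕ × ℤ))
    (ha : p a = 0) (ha1 : p (a + 1) = !₂[(1 : ℝ), 0, 0]) (ha2 : p (a + 2) 2 = 0)
    (ha3 : 1 / 100 ≤ p (a + 2) 1)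
    (hp : ∀ i ≤ n, ∀ j ≤ n, ‖p i - p j‖ ≤ 13 / 10)
    (hlen : ∀ i, i < n → |‖p (i + 1) - p i‖ ^ 2 - 1| ≤ 1 / 10 ^ 14)
    (hW : ∀ w ∈ walls, w.1 + 1 < w.2.1 ∧ w.2.1 < n ∧ (w.2.2 = 1 ∨ w.2.2 = -1))
    (hV : ∀ w ∈ walls, 1 / 10 ^ 11 ≤ (w.2.2 : ℝ) * vol p w.1 w.2.1)
    (hall : ∀ i j, i + 1 < j → j < n → 1 / 10 ^ 11 ≤ |vol p i j|)
    (hadj : ∀ i, i + 1 < n → 1 / 100 ≤ ‖cr (p (i + 1) - p i) (p (i + 2) - p (i + 1))‖) :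
    ∃ q0 : ℕ → E3, IsUnit n q0 ∧ q0 a = 0 ∧ q0 (a + 1) = !₂[(1 : ℝ), 0, 0] ∧ q0 (a + 2) 2 = 0 ∧
      0 < q0 (a + 2) 1 ∧ (∀ k ≤ n, ‖q0 k - p k‖ ≤ 1 / 10 ^ 12) ∧
      (∀ w ∈ walls, 0 < (w.2.2 : ℝ) * vol q0 w.1 w.2.1) ∧ Far n q0 ∧ Near n q0 := by
  sorry

/-- Task GEO: first order expansion of the volume of a wall with explicit error. -/
theorem wall_gen (A B R α β γ N1 N2 N3 : E3) (s b : ℝ) (hs : s = 1 ∨ s = -1)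
    (hA : ‖A‖ ≤ 101 / 100) (hB : ‖B‖ ≤ 101 / 100) (hR : ‖R‖ ≤ 13 / 10)
    (hα : ‖α‖ ≤ 2 / 10 ^ 6) (hβ : ‖β‖ ≤ 2 / 10 ^ 6) (hγ : ‖γ‖ ≤ 2 / 10 ^ 6)
    (h1 : ‖s • cr A B - N1‖ ≤ 2 / 10 ^ 7) (h2 : ‖s • cr B R - N2‖ ≤ 2 / 10 ^ 7)
    (h3 : ‖s • cr R A - N3‖ ≤ 2 / 10 ^ 7)
    (hb : s * dt A B R + 2 / 10 ^ 11 ≤ b)
    (hV : 0 ≤ s * dt (A + α) (B + β) (R + γ)) :
    0 ≤ (inner ℝ N1 γ + inner ℝ N2 α + inner ℝ N3 β : ℝ) + b := by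
  sorry

/-- Task LIN: the linear algebra estimate. -/
theorem lin_bound {ι κ M : Type} [Fintype ι] [Fintype κ] [Fintype M] [DecidableEq M]
    (G : ι → M → ℝ) (H : κ → M → ℝ) (w : M → ℝ) (β : ι → ℝ) (κ2 r tolω tol T τ : ℝ)
    (ω X : ι → ℝ) (ζ Z : κ → ℝ) (m0 : M)
    (hβ : ∀ c, 0 ≤ β c) (hκ : 0 ≤ κ2) (hr : 0 ≤ r) (htω : 0 ≤ tolω) (ht : 0 ≤ tol) (hT : 0 ≤ T)
    (hτ : 0 ≤ τ)
    (hG : ∀ c, 0 ≤ ∑ m, G c m * w m + β c) (hH : ∀ l, |∑ m, H l m * w m| ≤ κ2)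
    (hw : ∀ m, |w m| ≤ r) (hX : ∀ c, |X c| ≤ τ * ω c)
    (hresω : ∀ m, |∑ c, ω c * G c m + ∑ l, ζ l * H l m| ≤ tolω ∨ w m = 0)
    (hres : ∀ m, |∑ c, X c * G c m + ∑ l, Z l * H l m - (if m = m0 then T else 0)| ≤ tol ∨
      w m = 0) :
    T * |w m0| ≤ τ * (∑ c, ω c * β c + κ2 * ∑ l, |ζ l| + tolω * (Fintype.card M * r))
      + ∑ c, |X c| * β c + κ2 * ∑ l, |Z l| + tol * (Fintype.card M * r) := by
  sorry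

/-- Task FIN1: the frozen statement S05104. -/
theorem fin1 (n a : ℕ) (han : a + 3 ≤ n) (h : Locked n a) :
    ¬ (∀ n : ℕ, ∀ p : ℕ → EuclideanSpace ℝ (Fin 3),
      ((∀ i, i < n → dist (p i) (p (i + 1)) = 1) ∧
       (∀ i j, i + 1 < j → j < n →
          Disjoint (segment ℝ (p i) (p (i + 1))) (segment ℝ (p j) (p (j + 1)))) ∧
       (∀ i, i + 1 < n →
          segment ℝ (p i) (p (i + 1)) ∩ segment ℝ (p (i + 1)) (p (i + 2)) = {p (i + 1)})) →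
      ∃ γ : ℝ → ℕ → EuclideanSpace ℝ (Fin 3),
        Continuous γ ∧
        (∀ i, i ≤ n → γ 0 i = p i) ∧
        (∀ t ∈ Set.Icc (0 : ℝ) 1,
          (∀ i, i < n → dist (γ t i) (γ t (i + 1)) = 1) ∧
          (∀ i j, i + 1 < j → j < n →
            Disjoint (segment ℝ (γ t i) (γ t (i + 1))) (segment ℝ (γ t j) (γ t (j + 1)))) ∧
          (∀ i, i + 1 < n →
            segment ℝ (γ t i) (γ t (i + 1)) ∩ segment ℝ (γ t (i + 1)) (γ t (i + 2))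
              = {γ t (i + 1)})) ∧
        ∃ v : EuclideanSpace ℝ (Fin 3), ‖v‖ = 1 ∧
          ∀ i, i ≤ n → γ 1 i = γ 1 0 + (i : ℝ) • v) := by
  sorry

/-- Task FIN2: the frozen statement S07546 (unit trees; use the path graph on `Fin (n + 1)`). -/
theorem fin2 (n a : ℕ) (han : a + 3 ≤ n) (h : Locked n a) :
    ¬ (∀ (V : Type) [Fintype V] (G : SimpleGraph V), G.IsTree →
      ∀ p : V → EuclideanSpace ℝ (Fin 3),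
        (∀ u v, G.Adj u v → dist (p u) (p v) = 1) →
        Function.Injective p →
        (∀ a b c d, G.Adj a b → G.Adj c d → s(a, b) ≠ s(c, d) →
          ∀ x, x ∈ segment ℝ (p a) (p b) → x ∈ segment ℝ (p c) (p d) →
            ∃ w, (w = a ∨ w = b) ∧ (w = c ∨ w = d) ∧ x = p w) →
        ∃ f : ℝ → V → EuclideanSpace ℝ (Fin 3),
          ContinuousOn f (Set.Icc 0 1) ∧ f 0 = p ∧
          (∀ t ∈ Set.Icc (0:ℝ) 1,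
            (∀ u v, G.Adj u v → dist (f t u) (f t v) = 1) ∧
            Function.Injective (f t) ∧
            (∀ a b c d, G.Adj a b → G.Adj c d → s(a, b) ≠ s(c, d) →
              ∀ x, x ∈ segment ℝ (f t a) (f t b) → x ∈ segment ℝ (f t c) (f t d) →
                ∃ w, (w = a ∨ w = b) ∧ (w = c ∨ w = d) ∧ x = f t w)) ∧
          ∃ A : AffineSubspace ℝ (EuclideanSpace ℝ (Fin 3)),
            Module.finrank ℝ A.direction ≤ 2 ∧ ∀ v, f 1 v ∈ A) := by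
  sorry

end Pool.Agent.H834R5.LUC.Stubs
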